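import Mathlib
import Pool.Agent.H520R3.Weyl

/-! Quadratic Gauss sums to the modulus `9^m` and incomplete sums. -/

set_option autoImplicit false

namespace Run7.h384.WS

open Finset
open Pool.Agent.H520R3 (e e_zero e_add norm_e e_neg e_int e_nat e_add_int e_mul_nat norm_e_sub_one_le
  norm_e_sub_e_le)

/-- complete quadratic Gauss sum -/
noncomputable def G (A : ℤ) (q : ℕ) : ℂ := ∑ n ∈ range q, e ((A : ℝ) * (n : ℝ) ^ 2 / q)

lemma e_eq_of_sub_int {x y : ℝ} (n : ℤ) (h : x = y + n) : e x = e y := by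
  rw [h, e_add_int]

/-- sum of `e(b v / 3)` over `v mod 3` -/
lemma sum_three (b : ℤ) : ∑ v ∈ range 3, e ((b : ℝ) * v / 3) = if (3 : ℤ) ∣ b then 3 else 0 := by
  split_ifs with h
  · obtain ⟨c, rfl⟩ := h
    have : ∀ v ∈ range 3, e (((3 * c : ℤ) : ℝ) * v / 3) = 1 := by
      intro v _
      rw [← e_int (c * v)]
      congr 1
      push_cast
      ring
    rw [sum_congr rfl this]
    simp
  · have h1 : e ((b : ℝ) / 3) ≠ 1 := by
      intro h1
      have h2 : ∃ n : ℤ, (b : ℝ) / 3 = n := by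
        unfold Pool.Agent.H520R3.e at h1
        rw [Complex.exp_eq_one_iff] at h1
        obtain ⟨n, hn⟩ := h1
        refine ⟨n, ?_⟩
        have h3 : (2 * Real.pi * Complex.I : ℂ) ≠ 0 := Complex.two_pi_I_ne_zero
        have h4 : (2 * Real.pi * Complex.I : ℂ) * ((b : ℝ) / 3 : ℝ) =
            (2 * Real.pi * Complex.I) * (n : ℝ) := by
          push_cast at hn ⊢
          linear_combination hn
        have h5 := mul_left_cancel₀ h3 h4
        exact_mod_cast h5
      obtain ⟨n, hn⟩ := h2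
      apply h
      refine ⟨n, ?_⟩
      have : (b : ℝ) = 3 * n := by linarith
      exact_mod_cast this
    have h2 : ∑ v ∈ range 3, e ((b : ℝ) * v / 3) = ∑ v ∈ range 3, e ((b : ℝ) / 3) ^ v := by
      apply sum_congr rfl
      intro v _
      rw [← e_mul_nat]
      congr 1
      ring
    rw [h2, geom_sum_eq h1, ← e_mul_nat]
    have : e ((b : ℝ) / 3 * (3 : ℕ)) = 1 := by
      rw [← e_int b]
      congr 1
      push_cast
      ring
    rw [this, sub_self, zero_div]

lemma sum_range_mul {M : Type*} [AddCommMonoid M] (f : ℕ → M) (a b : ℕ) :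
    ∑ n ∈ range (a * b), f n = ∑ v ∈ range b, ∑ u ∈ range a, f (u + a * v) := by
  induction b with
  | zero => simp
  | succ b ih =>
    rw [Nat.mul_succ, sum_range_add, ih, sum_range_succ]
    congr 1
    apply sum_congr rfl
    intro u _
    rw [add_comm]

lemma G_step (A : ℤ) (hA : ¬ (3 : ℤ) ∣ A) (m : ℕ) : G A (9 ^ (m + 1)) = 3 * G A (9 ^ m) := by
  unfold G
  have e1 : 9 ^ (m + 1) = (3 * 9 ^ m) * 3 := by ring
  rw [e1, sum_range_mul, sum_comm]
  have e2 : ∀ u ∈ range (3 * 9 ^ m), ∑ v ∈ range 3,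
      e ((A : ℝ) * ((u + 3 * 9 ^ m * v : ℕ) : ℝ) ^ 2 / ((3 * 9 ^ m * 3 : ℕ) : ℝ)) =
      if 3 ∣ u then 3 * e ((A : ℝ) * (u : ℝ) ^ 2 / ((3 * 9 ^ m * 3 : ℕ) : ℝ)) else 0 := by
    intro u _
    have e3 : ∀ v ∈ range 3, e ((A : ℝ) * ((u + 3 * 9 ^ m * v : ℕ) : ℝ) ^ 2 / ((3 * 9 ^ m * 3 : ℕ) : ℝ)) =
        e ((A : ℝ) * (u : ℝ) ^ 2 / ((3 * 9 ^ m * 3 : ℕ) : ℝ)) * e (((2 * A * u : ℤ) : ℝ) * v / 3) := by
      intro v _
      rw [← e_add]
      apply e_eq_of_sub_int (A * 9 ^ m * v ^ 2)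
      push_cast
      field_simp
      ring
    rw [sum_congr rfl e3, ← mul_sum, sum_three]
    have h1 : (3 : ℤ) ∣ 2 * A * u ↔ 3 ∣ u := by
      have hp : Prime (3 : ℤ) := Int.prime_three
      rw [hp.dvd_mul, hp.dvd_mul]
      constructor
      · rintro ((h | h) | h)
        · norm_num at h
        · exact absurd h hA
        · exact_mod_cast h
      · intro h
        right
        exact_mod_cast h
    by_cases h : 3 ∣ u
    · rw [if_pos h, if_pos (h1.2 h)]
      ring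
    · rw [if_neg h, if_neg (fun h' => h (h1.1 h')), mul_zero]
  rw [sum_congr rfl e2, ← sum_filter, ← mul_sum]
  congr 1
  symm
  apply sum_nbij (fun w => 3 * w)
  · intro w hw
    rw [mem_range] at hw
    rw [mem_filter, mem_range]
    exact ⟨by omega, ⟨w, rfl⟩⟩
  · intro a _ b _ h
    have : 3 * a = 3 * b := h
    omega
  · intro u hu
    rw [mem_coe, mem_filter, mem_range] at hu
    obtain ⟨hu, w, rfl⟩ := hu
    exact ⟨w, by rw [mem_coe, mem_range]; omega, rfl⟩
  · intro w _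
    congr 1
    push_cast
    field_simp

lemma G_eq (A : ℤ) (hA : ¬ (3 : ℤ) ∣ A) (m : ℕ) : G A (9 ^ m) = 3 ^ m := by
  induction m with
  | zero => simp [G, e_zero]
  | succ m ih => rw [G_step A hA, ih]; ring

/-- incomplete sums -/
lemma incomplete (A : ℤ) (q : ℕ) (hq : 0 < q) (M : ℕ) :
    ‖∑ n ∈ range M, (e ((A : ℝ) * (n : ℝ) ^ 2 / q) - G A q / q)‖ ≤ 2 * q := by
  have hq' : (0 : ℝ) < q := by exact_mod_cast hq
  set c : ℕ → ℂ := fun n => e ((A : ℝ) * (n : ℝ) ^ 2 / q) - G A q / q with hc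
  have hper : ∀ u v : ℕ, c (u + q * v) = c u := by
    intro u v
    simp only [hc]
    congr 1
    apply e_eq_of_sub_int (2 * A * u * v + A * q * v ^ 2)
    push_cast
    field_simp
    ring
  have hz : ∑ n ∈ range q, c n = 0 := by
    simp only [hc]
    rw [sum_sub_distrib, sum_const, card_range, nsmul_eq_mul]
    have : (q : ℂ) ≠ 0 := by exact_mod_cast hq.ne'
    unfold G
    field_simp
    ring
  have hGle : ‖G A q / q‖ ≤ 1 := by
    rw [norm_div, Complex.norm_natCast, div_le_one hq']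
    refine (norm_sum_le _ _).trans ?_
    simp [norm_e]
  have hM : M = q * (M / q) + M % q := (Nat.div_add_mod M q).symm
  rw [hM, sum_range_add, sum_range_mul]
  have h1 : ∑ v ∈ range (M / q), ∑ u ∈ range q, c (u + q * v) = 0 := by
    apply sum_eq_zero
    intro v _
    rw [sum_congr rfl (fun u _ => hper u v), hz]
  have h2 : ∑ x ∈ range (M % q), c (q * (M / q) + x) = ∑ x ∈ range (M % q), c x := by
    apply sum_congr rfl
    intro x _
    rw [add_comm, hper]
  rw [h1, h2, zero_add]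
  refine (norm_sum_le _ _).trans ?_
  have h3 : ∀ x ∈ range (M % q), ‖c x‖ ≤ 2 := by
    intro x _
    simp only [hc]
    refine (norm_sub_le _ _).trans ?_
    rw [norm_e]
    linarith
  refine (sum_le_sum h3).trans ?_
  rw [sum_const, card_range, nsmul_eq_mul]
  have h4 : M % q ≤ q := (Nat.mod_lt _ hq).le
  have h5 : ((M % q : ℕ) : ℝ) ≤ q := by exact_mod_cast h4
  linarith

/-- partial summation: a sum with bounded partial sums against a slowly varying weight -/
lemma abel_bound (c w : ℕ → ℂ) (R V : ℝ) (M : ℕ) (hR : ∀ n, ‖∑ i ∈ range n, c i‖ ≤ R)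
    (hw : ∀ n, ‖w n‖ ≤ 1) (hV : ∑ i ∈ range M, ‖w (i + 1) - w i‖ ≤ V) :
    ‖∑ i ∈ range M, c i * w i‖ ≤ R * (1 + V) := by
  have hR0 : 0 ≤ R := (norm_nonneg _).trans (hR 0)
  have key : ∀ M : ℕ, ∑ i ∈ range M, c i * w i =
      (∑ i ∈ range M, c i) * w M - ∑ i ∈ range M, (∑ j ∈ range (i + 1), c j) * (w (i + 1) - w i) := by
    intro M
    induction M with
    | zero => simp
    | succ M ih =>
      rw [sum_range_succ, ih, sum_range_succ (fun i => (∑ j ∈ range (i + 1), c j) * (w (i + 1) - w i)),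
        sum_range_succ c M]
      ring
  rw [key M]
  refine (norm_sub_le _ _).trans ?_
  have h1 : ‖(∑ i ∈ range M, c i) * w M‖ ≤ R := by
    rw [norm_mul]
    calc _ ≤ R * 1 := mul_le_mul (hR M) (hw M) (norm_nonneg _) hR0
      _ = R := mul_one R
  have h2 : ‖∑ i ∈ range M, (∑ j ∈ range (i + 1), c j) * (w (i + 1) - w i)‖ ≤ R * V := by
    refine (norm_sum_le _ _).trans ?_
    calc ∑ i ∈ range M, ‖(∑ j ∈ range (i + 1), c j) * (w (i + 1) - w i)‖
        ≤ ∑ i ∈ range M, R * ‖w (i + 1) - w i‖ := by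
          apply sum_le_sum
          intro i _
          rw [norm_mul]
          exact mul_le_mul_of_nonneg_right (hR _) (norm_nonneg _)
      _ = R * ∑ i ∈ range M, ‖w (i + 1) - w i‖ := by rw [mul_sum]
      _ ≤ R * V := mul_le_mul_of_nonneg_left hV hR0
  linarith

/-- lower bound of the quadratic sum near a rational with denominator `9^m` -/
lemma lower (A : ℤ) (hA : ¬ (3 : ℤ) ∣ A) (m : ℕ) (β : ℝ) (hβ : 0 ≤ β) (M : ℕ)
    (hβM : β * (M : ℝ) ^ 2 ≤ 1 / 8) :
    (M : ℝ) / (2 * 3 ^ m) - 4 * 9 ^ m ≤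
      ‖∑ n ∈ range M, e (((A : ℝ) / 9 ^ m + β) * (n : ℝ) ^ 2)‖ := by
  set q : ℕ := 9 ^ m with hq
  have hq0 : 0 < q := by positivity
  have hqr : (q : ℝ) = 9 ^ m := by rw [hq]; push_cast; rfl
  have hG : G A q / q = ((1 / 3 ^ m : ℝ) : ℂ) := by
    rw [hq, G_eq A hA m]
    push_cast
    have : (9 : ℂ) ^ m = 3 ^ m * 3 ^ m := by rw [← mul_pow]; norm_num
    rw [this]
    field_simp
  set w : ℕ → ℂ := fun n => e (β * (n : ℝ) ^ 2) with hw
  have hsplit : ∑ n ∈ range M, e (((A : ℝ) / 9 ^ m + β) * (n : ℝ) ^ 2) =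
      ((1 / 3 ^ m : ℝ) : ℂ) * ∑ n ∈ range M, w n +
        ∑ n ∈ range M, (e ((A : ℝ) * (n : ℝ) ^ 2 / q) - G A q / q) * w n := by
    rw [mul_sum, ← sum_add_distrib]
    apply sum_congr rfl
    intro n _
    rw [hG, sub_mul, add_sub_cancel, hw]
    simp only
    rw [← e_add]
    congr 1
    rw [hqr]
    ring
  have hvar : ∑ i ∈ range M, ‖w (i + 1) - w i‖ ≤ 1 := by
    have h1 : ∀ i ∈ range M, ‖w (i + 1) - w i‖ ≤ 2 * Real.pi * β * (2 * i + 1) := by
      intro i _
      simp only [hw]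
      refine (norm_e_sub_e_le _ _).trans (le_of_eq ?_)
      push_cast
      rw [show β * ((i : ℝ) + 1) ^ 2 - β * (i : ℝ) ^ 2 = β * (2 * i + 1) by ring,
        abs_of_nonneg (by positivity)]
      ring
    refine (sum_le_sum h1).trans ?_
    have h2 : ∑ i ∈ range M, 2 * Real.pi * β * (2 * (i : ℝ) + 1) = 2 * Real.pi * β * (M : ℝ) ^ 2 := by
      clear h1 hβM hsplit
      induction M with
      | zero => simp
      | succ M ih => rw [sum_range_succ, ih]; push_cast; ring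
    rw [h2]
    have := Real.pi_lt_four
    have h3 : 0 ≤ β * (M : ℝ) ^ 2 := by positivity
    nlinarith
  have herr := abel_bound (fun n => e ((A : ℝ) * (n : ℝ) ^ 2 / q) - G A q / q) w (2 * q) 1 M
    (fun n => incomplete A q hq0 n) (fun n => by simp only [hw]; rw [norm_e]) hvar
  have hmain : (M : ℝ) / 2 ≤ ‖∑ n ∈ range M, w n‖ := by
    have h1 : ∀ n ∈ range M, (1 / 2 : ℝ) ≤ (w n).re := by
      intro n hn
      rw [mem_range] at hn
      simp only [hw]
      unfold Pool.Agent.H520R3.e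
      rw [Complex.exp_ofReal_mul_I_re]
      have h2 : β * (n : ℝ) ^ 2 ≤ 1 / 8 := by
        have : (n : ℝ) ^ 2 ≤ (M : ℝ) ^ 2 := by
          have : (n : ℝ) ≤ M := by exact_mod_cast hn.le
          gcongr
        nlinarith
      have h3 : 0 ≤ β * (n : ℝ) ^ 2 := by positivity
      have h4 : Real.cos (Real.pi / 3) ≤ Real.cos (2 * Real.pi * (β * (n : ℝ) ^ 2)) := by
        apply Real.cos_le_cos_of_nonneg_of_le_pi
        · have := Real.pi_pos; positivity
        · have := Real.pi_pos; linarith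
        · have := Real.pi_pos; nlinarith
      rwa [Real.cos_pi_div_three] at h4
    calc (M : ℝ) / 2 = ∑ n ∈ range M, (1 / 2 : ℝ) := by
          rw [sum_const, card_range, nsmul_eq_mul]; ring
      _ ≤ ∑ n ∈ range M, (w n).re := sum_le_sum h1
      _ = (∑ n ∈ range M, w n).re := by rw [Complex.re_sum]
      _ ≤ _ := Complex.re_le_norm _
  rw [hsplit]
  have h5 := norm_add_le_of_le (le_refl ‖((1 / 3 ^ m : ℝ) : ℂ) * ∑ n ∈ range M, w n +
        ∑ n ∈ range M, (e ((A : ℝ) * (n : ℝ) ^ 2 / q) - G A q / q) * w n‖)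
        (le_refl ‖-∑ n ∈ range M, (e ((A : ℝ) * (n : ℝ) ^ 2 / q) - G A q / q) * w n‖)
  rw [add_neg_cancel_right, norm_neg] at h5
  rw [norm_mul, Complex.norm_real, Real.norm_of_nonneg (by positivity)] at h5
  have h6 : (M : ℝ) / (2 * 3 ^ m) ≤ 1 / 3 ^ m * ‖∑ n ∈ range M, w n‖ := by
    calc (M : ℝ) / (2 * 3 ^ m) = 1 / 3 ^ m * (M / 2) := by ring
      _ ≤ _ := mul_le_mul_of_nonneg_left hmain (by positivity)
  have herr' : ‖∑ n ∈ range M, (e ((A : ℝ) * (n : ℝ) ^ 2 / q) - G A q / q) * w n‖ ≤ 4 * 9 ^ m :=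
    herr.trans (le_of_eq (by rw [hqr]; ring))
  linarith

end Run7.h384.WS
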