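import Mathlib
import Pool.Agent.H520R3.Weyl

/-! Weyl's inequality for quadratic sums -/

set_option autoImplicit false

namespace Run7.h384.WS

open Finset
open Pool.Agent.H520R3 (e e_zero e_add norm_e e_neg e_int e_nat e_add_int e_mul_nat norm_e_sub_one_le
  norm_e_sub_e_le geom_bound diff_ineq)

/-- majorant for one residue -/
noncomputable def gmaj (q : ℕ) (T : ℝ) (s : ℕ) : ℝ :=
  (if s < 3 then T else q / (2 * ((s : ℝ) - 2))) + (if q < s + 3 then T else q / (2 * ((q : ℝ) - s - 2)))

lemma gmaj_nonneg (q : ℕ) (T : ℝ) (hT : 0 ≤ T) (s : ℕ) : 0 ≤ gmaj q T s := by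
  unfold gmaj
  apply add_nonneg
  · split_ifs with h
    · exact hT
    · have : (3 : ℝ) ≤ s := by exact_mod_cast not_lt.1 h
      apply div_nonneg (Nat.cast_nonneg _)
      linarith
  · split_ifs with h
    · exact hT
    · have : (s : ℝ) + 3 ≤ q := by exact_mod_cast not_lt.1 h
      apply div_nonneg (Nat.cast_nonneg _)
      linarith

lemma harm_sum (q : ℕ) : ∑ j ∈ range q, (1 : ℝ) / ((j : ℝ) + 1) ≤ 1 + Real.log q := by
  have h := harmonic_le_one_add_log q
  unfold harmonic at h
  push_cast at h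
  refine le_trans (le_of_eq ?_) h
  apply sum_congr rfl
  intro j _
  rw [one_div]

lemma sum_first (q : ℕ) (T : ℝ) (hT : 0 ≤ T) (K : ℕ) (hK : K ≤ q + 1) :
    ∑ s ∈ range K, (if s < 3 then T else (q : ℝ) / (2 * ((s : ℝ) - 2))) ≤
      3 * T + q / 2 * (1 + Real.log q) := by
  have h1 : ∀ s ∈ range K, (if s < 3 then T else (q : ℝ) / (2 * ((s : ℝ) - 2))) ≤
      (if s < 3 then T else 0) + (if 3 ≤ s then (q : ℝ) / 2 * (1 / (((s - 3 : ℕ) : ℝ) + 1)) else 0) := by
    intro s _
    by_cases h : s < 3
    · rw [if_pos h, if_pos h, if_neg (by omega), add_zero]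
    · rw [if_neg h, if_neg h, if_pos (by omega), zero_add]
      have h3 : (3 : ℝ) ≤ s := by exact_mod_cast not_lt.1 h
      rw [Nat.cast_sub (not_lt.1 h)]
      apply le_of_eq
      push_cast
      have : (s : ℝ) - 2 ≠ 0 := by linarith
      have h4 : (s : ℝ) - 3 + 1 = s - 2 := by ring
      rw [h4]
      field_simp
  refine (sum_le_sum h1).trans ?_
  rw [sum_add_distrib]
  apply add_le_add
  · rw [← sum_filter, sum_const, nsmul_eq_mul]
    apply mul_le_mul_of_nonneg_right _ hT
    have : (range K).filter (fun s => s < 3) ⊆ range 3 := by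
      intro s hs
      rw [mem_filter] at hs
      exact mem_range.2 hs.2
    have := card_le_card this
    rw [card_range] at this
    exact_mod_cast this
  · rw [← sum_filter]
    calc ∑ s ∈ (range K).filter (fun s => 3 ≤ s), (q : ℝ) / 2 * (1 / (((s - 3 : ℕ) : ℝ) + 1))
        ≤ ∑ j ∈ range q, (q : ℝ) / 2 * (1 / ((j : ℝ) + 1)) := by
          have e1 : ∑ s ∈ (range K).filter (fun s => 3 ≤ s), (q : ℝ) / 2 * (1 / (((s - 3 : ℕ) : ℝ) + 1)) =
              ∑ j ∈ ((range K).filter (fun s : ℕ => 3 ≤ s)).image (fun s : ℕ => s - 3), (q : ℝ) / 2 * (1 / (((j : ℕ) : ℝ) + 1)) := by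
            rw [sum_image]
            intro a ha b hb hab
            rw [mem_coe, mem_filter] at ha hb
            have : a - 3 = b - 3 := hab
            omega
          rw [e1]
          apply sum_le_sum_of_subset_of_nonneg
          · intro j hj
            rw [mem_image] at hj
            obtain ⟨s, hs, rfl⟩ := hj
            rw [mem_filter, mem_range] at hs
            rw [mem_range]
            omega
          · intro j _ _
            positivity
      _ = (q : ℝ) / 2 * ∑ j ∈ range q, (1 / ((j : ℝ) + 1)) := by rw [mul_sum]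
      _ ≤ _ := mul_le_mul_of_nonneg_left (harm_sum q) (by positivity)

lemma sum_gmaj (q : ℕ) (T : ℝ) (hT : 0 ≤ T) :
    ∑ s ∈ range q, gmaj q T s ≤ 6 * T + q * (1 + Real.log q) := by
  unfold gmaj
  rw [sum_add_distrib]
  have h1 := sum_first q T hT q (by omega)
  have h1' := sum_first q T hT (q + 1) le_rfl
  have h2 : ∑ s ∈ range q, (if q < s + 3 then T else (q : ℝ) / (2 * ((q : ℝ) - s - 2))) ≤
      3 * T + q / 2 * (1 + Real.log q) := by
    refine le_trans ?_ h1'
    rw [← sum_range_reflect, sum_range_succ' (fun s : ℕ => if s < 3 then T else (q : ℝ) / (2 * ((s : ℝ) - 2)))]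
    have h6 : (0 : ℝ) ≤ if 0 < 3 then T else (q : ℝ) / (2 * (((0 : ℕ) : ℝ) - 2)) := by
      rw [if_pos (by norm_num)]; exact hT
    refine le_trans (sum_le_sum (g := fun s : ℕ => if s + 1 < 3 then T else (q : ℝ) / (2 * (((s + 1 : ℕ) : ℝ) - 2))) ?_)
      (le_add_of_nonneg_right h6)
    intro s hs
    rw [mem_range] at hs
    by_cases h3 : s + 1 < 3
    · rw [if_pos h3, if_pos (by omega)]
    · rw [if_neg h3, if_neg (by omega)]
      have h5 : ((q - 1 - s : ℕ) : ℝ) = (q : ℝ) - 1 - s := by
        rw [Nat.cast_sub (by omega), Nat.cast_sub (by omega)]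
        push_cast
        ring
      rw [h5]
      apply le_of_eq
      congr 2
      push_cast
      ring
  linarith

/-- one block of `q` consecutive terms -/
lemma block (x : ℝ) (a : ℤ) (q : ℕ) (hq : 0 < q) (hcop : IsCoprime a (q : ℤ))
    (hx : |x - a / q| ≤ 1 / (q : ℝ) ^ 2) (γ T : ℝ) (hT : 0 ≤ T) (F : ℕ → ℝ)
    (hFT : ∀ r, F r ≤ T)
    (hF : ∀ (r : ℕ) (κ : ℝ), 0 < κ → (∀ n : ℤ, κ < |γ + x * r - n|) → F r ≤ 1 / (2 * κ)) :
    ∑ r ∈ range q, F r ≤ 6 * T + q * (1 + Real.log q) := by
  have hq' : (0 : ℝ) < q := by exact_mod_cast hq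
  set c : ℤ := ⌊(q : ℝ) * γ⌋ with hc
  have hc1 : (c : ℝ) ≤ q * γ := Int.floor_le _
  have hc2 : (q : ℝ) * γ < c + 1 := Int.lt_floor_add_one _
  set σ : ℕ → ℕ := fun r => ((c + a * r) % (q : ℤ)).toNat with hσ
  have hq'' : (q : ℤ) ≠ 0 := by exact_mod_cast hq.ne'
  have hσ1 : ∀ r : ℕ, ((σ r : ℕ) : ℤ) = (c + a * r) % (q : ℤ) := by
    intro r
    simp only [hσ]
    exact Int.toNat_of_nonneg (Int.emod_nonneg _ hq'')
  have hσlt : ∀ r : ℕ, σ r < q := by
    intro r
    have h1 := hσ1 r
    have h2 := Int.emod_lt_of_pos (c + a * r) (by exact_mod_cast hq : (0 : ℤ) < q)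
    rw [← h1] at h2
    exact_mod_cast h2
  have hinj : Set.InjOn σ (range q) := by
    intro r hr r' hr' h
    rw [mem_coe, mem_range] at hr hr'
    have h1 : (c + a * r) % (q : ℤ) = (c + a * r') % (q : ℤ) := by
      rw [← hσ1, ← hσ1, h]
    have h2 : (q : ℤ) ∣ a * ((r : ℤ) - r') := by
      have := Int.ModEq.dvd (Int.ModEq.symm h1 : (c + a * r') ≡ (c + a * r) [ZMOD q])
      have e1 : c + a * (r : ℤ) - (c + a * r') = a * ((r : ℤ) - r') := by ring
      rwa [e1] at this
    have h3 : (q : ℤ) ∣ (r : ℤ) - r' := hcop.symm.dvd_of_dvd_mul_left h2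
    have h4 : |(r : ℤ) - r'| < q := by
      rw [abs_lt]
      constructor <;> omega
    have h5 := Int.eq_zero_of_abs_lt_dvd h3 h4
    omega
  have hbound : ∀ r ∈ range q, F r ≤ gmaj q T (σ r) := by
    intro r hr
    rw [mem_range] at hr
    have hr' : (r : ℝ) + 1 ≤ q := by exact_mod_cast hr
    set s := σ r with hs
    obtain ⟨w, hw⟩ : ∃ w : ℤ, c + a * r = s + q * w := by
      refine ⟨(c + a * r) / q, ?_⟩
      rw [hs, hσ1]
      exact (Int.emod_add_mul_ediv _ _).symm
    have hwr : (c : ℝ) + a * r = s + q * w := by exact_mod_cast hw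
    set ρ : ℝ := (q * γ - c) / q + (x - a / q) * r with hρ
    have hval : γ + x * r = s / q + w + ρ := by
      have : (s : ℝ) = c + a * r - q * w := by linarith
      rw [hρ, this]
      field_simp
      ring
    have hρ1 : |(x - a / q) * r| < 1 / q := by
      rw [abs_mul, abs_of_nonneg (Nat.cast_nonneg r : (0 : ℝ) ≤ r)]
      calc |x - a / q| * r ≤ 1 / (q : ℝ) ^ 2 * r := mul_le_mul_of_nonneg_right hx (Nat.cast_nonneg _)
        _ < 1 / (q : ℝ) ^ 2 * q := by
            apply mul_lt_mul_of_pos_left _ (by positivity)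
            linarith
        _ = 1 / q := by field_simp
    have hρ2 : 0 ≤ (q * γ - c) / q := div_nonneg (by linarith) hq'.le
    have hρ3 : (q * γ - c) / q < 1 / q := by
      rw [div_lt_div_iff_of_pos_right hq']
      linarith
    have hρ4 : -(1 / q) < ρ := by
      have := (abs_lt.1 hρ1).1
      rw [hρ]; linarith
    have hρ5 : ρ < 2 / q := by
      have := (abs_lt.1 hρ1).2
      have h2 : (2 : ℝ) / q = 1 / q + 1 / q := by ring
      rw [hρ, h2]; linarith
    unfold gmaj
    have hterm1 : 0 ≤ (if s < 3 then T else q / (2 * ((s : ℝ) - 2))) := by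
      split_ifs with h
      · exact hT
      · have : (3 : ℝ) ≤ s := by exact_mod_cast not_lt.1 h
        apply div_nonneg (Nat.cast_nonneg _)
        linarith
    have hterm2 : 0 ≤ (if q < s + 3 then T else q / (2 * ((q : ℝ) - s - 2))) := by
      split_ifs with h
      · exact hT
      · have : (s : ℝ) + 3 ≤ q := by exact_mod_cast not_lt.1 h
        apply div_nonneg (Nat.cast_nonneg _)
        linarith
    by_cases h1 : s < 3
    · rw [if_pos h1]
      have := hFT r
      linarith
    by_cases h2 : q < s + 3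
    · rw [if_pos h2]
      rw [if_neg h1] at hterm1
      rw [if_neg h1]
      have := hFT r
      linarith
    have h1' : (3 : ℝ) ≤ s := by exact_mod_cast not_lt.1 h1
    have h2' : (s : ℝ) + 3 ≤ q := by exact_mod_cast not_lt.1 h2
    -- the smaller of the two
    rcases le_total ((s : ℝ)) ((q : ℝ) - s) with hm | hm
    · have h3 : F r ≤ 1 / (2 * (((s : ℝ) - 2) / q)) := by
        apply hF r _ (by apply div_pos _ hq'; linarith)
        intro n
        rw [hval]
        rcases le_or_gt n w with hn | hn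
        · have hn' : (n : ℝ) ≤ w := by exact_mod_cast hn
          refine lt_of_lt_of_le ?_ (le_abs_self _)
          rw [sub_div]
          have : (1 : ℝ) / q < 2 / q := by
            rw [div_lt_div_iff_of_pos_right hq']; norm_num
          linarith
        · have hn' : (w : ℝ) + 1 ≤ n := by exact_mod_cast hn
          refine lt_of_lt_of_le ?_ (neg_le_abs _)
          have h5 : ((s : ℝ) - 2) / q + s / q ≤ 1 - 2 / q := by
            have : ((s : ℝ) - 2) / q + s / q = (2 * s - 2) / q := by ring
            rw [this]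
            have h6 : (1 : ℝ) - 2 / q = (q - 2) / q := by field_simp
            rw [h6, div_le_div_iff_of_pos_right hq']
            linarith
          linarith
      have h4 : 1 / (2 * (((s : ℝ) - 2) / q)) = q / (2 * ((s : ℝ) - 2)) := by
        have : (s : ℝ) - 2 ≠ 0 := by linarith
        field_simp
      rw [h4] at h3
      rw [if_neg h1]
      linarith
    · have h3 : F r ≤ 1 / (2 * (((q : ℝ) - s - 2) / q)) := by
        apply hF r _ (by apply div_pos _ hq'; linarith)
        intro n
        rw [hval]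
        rcases le_or_gt n w with hn | hn
        · have hn' : (n : ℝ) ≤ w := by exact_mod_cast hn
          refine lt_of_lt_of_le ?_ (le_abs_self _)
          have h5 : ((q : ℝ) - s - 2) / q + 2 / q ≤ s / q := by
            rw [← add_div, div_le_div_iff_of_pos_right hq']
            linarith
          have : (1 : ℝ) / q < 2 / q := by
            rw [div_lt_div_iff_of_pos_right hq']; norm_num
          linarith
        · have hn' : (w : ℝ) + 1 ≤ n := by exact_mod_cast hn
          refine lt_of_lt_of_le ?_ (neg_le_abs _)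
          have h5 : ((q : ℝ) - s - 2) / q = 1 - s / q - 2 / q := by
            field_simp
          rw [h5]
          linarith
      have h4 : 1 / (2 * (((q : ℝ) - s - 2) / q)) = q / (2 * ((q : ℝ) - s - 2)) := by
        have : (q : ℝ) - s - 2 ≠ 0 := by linarith
        field_simp
      rw [h4] at h3
      rw [if_neg h2]
      linarith
  refine (sum_le_sum hbound).trans ?_
  rw [← sum_image (f := gmaj q T) hinj]
  refine (sum_le_sum_of_subset_of_nonneg ?_ (fun s _ _ => gmaj_nonneg q T hT s)).trans (sum_gmaj q T hT)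
  intro s hs
  rw [mem_image] at hs
  obtain ⟨r, _, rfl⟩ := hs
  exact mem_range.2 (hσlt r)

lemma sum_range_mul' {M : Type*} [AddCommMonoid M] (f : ℕ → M) (a b : ℕ) :
    ∑ n ∈ range (a * b), f n = ∑ v ∈ range b, ∑ u ∈ range a, f (u + a * v) := by
  induction b with
  | zero => simp
  | succ b ih =>
    rw [Nat.mul_succ, sum_range_add, ih, sum_range_succ]
    congr 1
    apply sum_congr rfl
    intro u _
    rw [add_comm]

/-- sums over `K` consecutive terms -/
lemma blocks (x : ℝ) (a : ℤ) (q : ℕ) (hq : 0 < q) (hcop : IsCoprime a (q : ℤ))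
    (hx : |x - a / q| ≤ 1 / (q : ℝ) ^ 2) (T : ℝ) (hT : 0 ≤ T) (F : ℕ → ℝ)
    (hF0 : ∀ r, 0 ≤ F r) (hFT : ∀ r, F r ≤ T)
    (hF : ∀ (r : ℕ) (κ : ℝ), 0 < κ → (∀ n : ℤ, κ < |x * r - n|) → F r ≤ 1 / (2 * κ)) (K : ℕ) :
    ∑ r ∈ range K, F r ≤ ((K : ℝ) / q + 1) * (6 * T + q * (1 + Real.log q)) := by
  have hq' : (0 : ℝ) < q := by exact_mod_cast hq
  have hK : K ≤ q * (K / q + 1) := by
    have h1 := Nat.div_add_mod K q
    have h2 := Nat.mod_lt K hq
    rw [mul_add, mul_one]
    omega
  have h0 : 0 ≤ 6 * T + q * (1 + Real.log q) := by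
    have : 0 ≤ Real.log q := Real.log_nonneg (by exact_mod_cast hq)
    positivity
  calc ∑ r ∈ range K, F r ≤ ∑ r ∈ range (q * (K / q + 1)), F r :=
        sum_le_sum_of_subset_of_nonneg (range_subset_range.2 hK) (fun r _ _ => hF0 r)
    _ = ∑ v ∈ range (K / q + 1), ∑ u ∈ range q, F (u + q * v) := sum_range_mul' _ _ _
    _ ≤ ∑ v ∈ range (K / q + 1), (6 * T + q * (1 + Real.log q)) := by
        apply sum_le_sum
        intro v _
        apply block x a q hq hcop hx (x * (q * v)) T hT (fun u => F (u + q * v)) (fun u => hFT _)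
        intro u κ hκ h
        apply hF _ κ hκ
        intro n
        have := h n
        push_cast
        rwa [show x * ((u : ℝ) + q * v) - n = x * (q * v) + x * u - n by ring]
    _ = ((K / q : ℕ) + 1 : ℝ) * (6 * T + q * (1 + Real.log q)) := by
        rw [sum_const, card_range, nsmul_eq_mul]
        push_cast
        ring
    _ ≤ _ := by
        apply mul_le_mul_of_nonneg_right _ h0
        have : ((K / q : ℕ) : ℝ) ≤ (K : ℝ) / q := Nat.cast_div_le
        linarith

/-- Weyl's inequality for quadratic sums -/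
theorem weyl (x θ : ℝ) (a : ℤ) (q : ℕ) (hq : 0 < q) (hcop : IsCoprime a (q : ℤ))
    (hx : |x - a / q| ≤ 1 / (q : ℝ) ^ 2) (N : ℕ) :
    ‖∑ n ∈ range N, e (x * (n : ℝ) ^ 2 + θ * n)‖ ^ 2 ≤
      2 * ((2 * N / q + 1) * (6 * N + q * (1 + Real.log q))) := by
  have h1 := diff_ineq (fun n : ℕ => e (x * (n : ℝ) ^ 2 + θ * n)) N
  refine h1.trans ?_
  apply mul_le_mul_of_nonneg_left _ (by norm_num)
  set v : ℕ → ℝ := fun h => ‖∑ n ∈ range (N - h), e ((2 * x * h) * n)‖ with hv
  have h2 : ∀ h ∈ range N, ‖∑ n ∈ range (N - h), e (x * ((h + n : ℕ) : ℝ) ^ 2 + θ * ((h + n : ℕ) : ℝ)) *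
      (starRingEnd ℂ) (e (x * (n : ℝ) ^ 2 + θ * n))‖ = v h := by
    intro h _
    have e1 : ∑ n ∈ range (N - h), e (x * ((h + n : ℕ) : ℝ) ^ 2 + θ * ((h + n : ℕ) : ℝ)) *
      (starRingEnd ℂ) (e (x * (n : ℝ) ^ 2 + θ * n)) =
      e (x * (h : ℝ) ^ 2 + θ * h) * ∑ n ∈ range (N - h), e ((2 * x * h) * n) := by
      rw [mul_sum]
      apply sum_congr rfl
      intro n _
      rw [← e_neg, ← e_add, ← e_add]
      congr 1
      push_cast
      ring
    rw [e1, norm_mul, norm_e, one_mul]
  rw [sum_congr rfl h2]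
  set F : ℕ → ℝ := fun k => if Even k then v (k / 2) else 0 with hF
  have hv0 : ∀ h, 0 ≤ v h := fun h => norm_nonneg _
  have hvN : ∀ h, v h ≤ N := by
    intro h
    simp only [hv]
    refine (norm_sum_le _ _).trans ?_
    rw [sum_congr rfl (fun n _ => norm_e _), sum_const, card_range, nsmul_eq_mul, mul_one]
    exact_mod_cast Nat.sub_le _ _
  have h3 : ∑ h ∈ range N, v h ≤ ∑ k ∈ range (2 * N), F k := by
    have e2 : ∑ h ∈ range N, v h = ∑ k ∈ (range N).image (fun h => 2 * h), F k := by
      rw [sum_image (by intro a _ b _ hab; have : 2 * a = 2 * b := hab; omega)]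
      apply sum_congr rfl
      intro h _
      simp only [hF]
      rw [if_pos (even_two_mul h), Nat.mul_div_cancel_left _ (by norm_num : 0 < 2)]
    rw [e2]
    apply sum_le_sum_of_subset_of_nonneg
    · intro k hk
      rw [mem_image] at hk
      obtain ⟨h, hh, rfl⟩ := hk
      rw [mem_range] at hh ⊢
      omega
    · intro k _ _
      simp only [hF]
      split_ifs
      · exact hv0 _
      · exact le_refl _
  refine h3.trans ?_
  have h4 := blocks x a q hq hcop hx N (Nat.cast_nonneg _) F
    (fun k => by simp only [hF]; split_ifs; exacts [hv0 _, le_refl _])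
    (fun k => by simp only [hF]; split_ifs; exacts [hvN _, Nat.cast_nonneg _])
    (fun k κ hκ hk => by
      simp only [hF]
      split_ifs with hev
      · obtain ⟨h, rfl⟩ := hev
        have e3 : (h + h) / 2 = h := by omega
        rw [e3]
        simp only [hv]
        apply geom_bound hκ
        intro n
        have := hk n
        push_cast at this
        rwa [show x * ((h : ℝ) + h) - n = 2 * x * h - n by ring] at this
      · positivity) (2 * N)
  push_cast at h4
  exact h4

end Run7.h384.WS
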