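import Mathlib
import Pool.Agent.H664.DimLower

/-! Base 3 expansions with digits 0 and 1, and the sparse pattern of digits. -/

set_option autoImplicit false

namespace Run7.h384.WS

open Finset

section expansions

variable (δ : ℕ → ℤ) (h0 : ∀ m, 0 ≤ δ m) (h1 : ∀ m, δ m ≤ 1)

/-- value of the tail of an expansion -/
noncomputable def tl (δ : ℕ → ℤ) (K : ℕ) : ℝ := ∑' j : ℕ, (δ (j + K) : ℝ) / 3 ^ (j + K)

include h0 h1 in
lemma summ (K : ℕ) : Summable (fun j : ℕ => (δ (j + K) : ℝ) / 3 ^ (j + K)) := by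
  have h2 : Summable (fun j : ℕ => ((1 : ℝ) / 3) ^ j) :=
    summable_geometric_of_lt_one (by norm_num) (by norm_num)
  refine Summable.of_nonneg_of_le (fun j => ?_) (fun j => ?_) h2
  · have : (0 : ℝ) ≤ δ (j + K) := by exact_mod_cast h0 _
    positivity
  · have e1 : (δ (j + K) : ℝ) ≤ 1 := by exact_mod_cast h1 _
    rw [div_le_iff₀ (by positivity), one_div, inv_pow, ← div_eq_inv_mul, pow_add]
    rw [mul_comm ((3 : ℝ) ^ j), mul_div_assoc, div_self (by positivity), mul_one]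
    exact e1.trans (one_le_pow₀ (by norm_num))

include h0 h1 in
lemma tl_step (K : ℕ) : tl δ K = δ K / 3 ^ K + tl δ (K + 1) := by
  unfold tl
  rw [(summ δ h0 h1 K).tsum_eq_zero_add]
  congr 1
  · simp
  · apply tsum_congr
    intro j
    rw [show j + 1 + K = j + (K + 1) by ring]

include h0 in
lemma tl_nonneg (K : ℕ) : 0 ≤ tl δ K := by
  unfold tl
  apply tsum_nonneg
  intro j
  have : (0 : ℝ) ≤ δ (j + K) := by exact_mod_cast h0 _
  positivity

lemma geo_tail (K : ℕ) : ∑' j : ℕ, (1 : ℝ) / 3 ^ (j + K) = 3 / (2 * 3 ^ K) := by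
  have : (fun j : ℕ => (1 : ℝ) / 3 ^ (j + K)) = fun j : ℕ => ((1 : ℝ) / 3) ^ j * (1 / 3 ^ K) := by
    funext j
    rw [pow_add, one_div_pow]
    field_simp
  rw [this, tsum_mul_right, tsum_geometric_of_lt_one (by norm_num) (by norm_num)]
  norm_num
  ring

include h0 h1 in
lemma tl_le (K : ℕ) : tl δ K ≤ 3 / (2 * 3 ^ K) := by
  rw [← geo_tail]
  unfold tl
  have h2 : Summable (fun j : ℕ => (1 : ℝ) / 3 ^ (j + K)) := by
    have h3 := summ (fun _ => 1) (fun _ => by norm_num) (fun _ => le_refl _) K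
    simpa using h3
  refine Summable.tsum_le_tsum (fun j => ?_) (summ δ h0 h1 K) h2
  have e1 : (δ (j + K) : ℝ) ≤ 1 := by exact_mod_cast h1 _
  gcongr

include h0 h1 in
lemma tl_zero (K L : ℕ) (hKL : K ≤ L) (hz : ∀ m, K ≤ m → m < L → δ m = 0) : tl δ K = tl δ L := by
  induction L, hKL using Nat.le_induction with
  | base => rfl
  | succ L hL ih =>
    rw [ih (fun m hm hm' => hz m hm (by omega)), tl_step δ h0 h1 L, hz L hL (by omega)]
    simp

include h0 h1 in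
/-- head of the expansion -/
lemma head (K : ℕ) : ∃ A : ℤ, tl δ 0 = (A : ℝ) / 3 ^ K + tl δ (K + 1) ∧ (3 : ℤ) ∣ A - δ K := by
  induction K with
  | zero =>
    refine ⟨δ 0, ?_, by simp⟩
    rw [tl_step δ h0 h1 0]
  | succ K ih =>
    obtain ⟨A, hA, _⟩ := ih
    refine ⟨3 * A + δ (K + 1), ?_, by simp⟩
    rw [hA, tl_step δ h0 h1 (K + 1)]
    push_cast
    rw [pow_succ]
    field_simp
    ring

include h0 h1 in
lemma approx (K L : ℕ) (hKL : K < L) (hK : δ K = 1) (hz : ∀ m, K < m → m < L → δ m = 0)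
    (hL : δ L = 1) : ∃ A : ℤ, ¬ (3 : ℤ) ∣ A ∧ 1 / 3 ^ L ≤ tl δ 0 - (A : ℝ) / 3 ^ K ∧
      tl δ 0 - (A : ℝ) / 3 ^ K ≤ 3 / (2 * 3 ^ L) := by
  obtain ⟨A, hA, hA2⟩ := head δ h0 h1 K
  refine ⟨A, ?_, ?_, ?_⟩
  · intro h
    rw [hK] at hA2
    have : (3 : ℤ) ∣ 1 := by
      have := dvd_sub h hA2
      simpa using this
    norm_num at this
  · rw [hA, tl_zero δ h0 h1 (K + 1) L hKL (fun m hm hm' => hz m (by omega) hm'),
      tl_step δ h0 h1 L, hL]
    have := tl_nonneg δ h0 (L + 1)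
    push_cast
    linarith
  · rw [hA, tl_zero δ h0 h1 (K + 1) L hKL (fun m hm hm' => hz m (by omega) hm')]
    have := tl_le δ h0 h1 L
    linarith

end expansions

lemma diff_lower (δ δ' : ℕ → ℤ) (h0 : ∀ m, 0 ≤ δ m) (h1 : ∀ m, δ m ≤ 1)
    (h0' : ∀ m, 0 ≤ δ' m) (h1' : ∀ m, δ' m ≤ 1) (p : ℕ) (heq : ∀ m < p, δ m = δ' m)
    (hp : δ p = 0) (hp' : δ' p = 1) : 1 / (2 * 3 ^ p) ≤ tl δ' 0 - tl δ 0 := by
  have key : ∀ K ≤ p, tl δ' 0 - tl δ 0 = tl δ' K - tl δ K := by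
    intro K hK
    induction K with
    | zero => rfl
    | succ K ih =>
      rw [ih (by omega), tl_step δ h0 h1 K, tl_step δ' h0' h1' K, heq K (by omega)]
      ring
  rw [key p le_rfl, tl_step δ h0 h1 p, tl_step δ' h0' h1' p, hp, hp']
  have e1 := tl_nonneg δ' h0' (p + 1)
  have e2 := tl_le δ h0 h1 (p + 1)
  have e3 : (3 : ℝ) / (2 * 3 ^ (p + 1)) = 1 / (2 * 3 ^ p) := by
    rw [pow_succ]; field_simp
  rw [e3] at e2
  have e4 : (1 : ℝ) / 3 ^ p = 1 / (2 * 3 ^ p) + 1 / (2 * 3 ^ p) := by field_simp; norm_num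
  push_cast
  rw [e4]
  simp only [zero_div, zero_add]
  linarith

/-! ### The pattern -/

/-- block positions -/
noncomputable def hh (τ : ℝ) : ℕ → ℕ
  | 0 => 2
  | k + 1 => ⌊5 / 4 * τ * hh τ k⌋₊ + 1

section pattern

variable (τ : ℝ) (hτ : 3 < τ)

include hτ in
lemma hh_lt (k : ℕ) : 5 / 4 * τ * hh τ k < hh τ (k + 1) := by
  rw [hh]
  push_cast
  exact Nat.lt_floor_add_one _

include hτ in
lemma hh_le (k : ℕ) : (hh τ (k + 1) : ℝ) ≤ 5 / 4 * τ * hh τ k + 1 := by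
  rw [hh]
  push_cast
  have : (⌊5 / 4 * τ * (hh τ k : ℝ)⌋₊ : ℝ) ≤ 5 / 4 * τ * hh τ k := by
    apply Nat.floor_le
    have : 0 < τ := by linarith
    positivity
  linarith

include hτ in
lemma hh_two (k : ℕ) : 2 ≤ hh τ k := by
  induction k with
  | zero => exact le_rfl
  | succ k ih =>
    have h1 := hh_lt τ hτ k
    have h2 : (2 : ℝ) ≤ hh τ k := by exact_mod_cast ih
    have h3 : (2 : ℝ) ≤ hh τ (k + 1) := by nlinarith
    exact_mod_cast h3

include hτ in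
lemma hh_three (k : ℕ) : 3 * hh τ k < hh τ (k + 1) := by
  have h1 := hh_lt τ hτ k
  have h2 : (2 : ℝ) ≤ hh τ k := by exact_mod_cast hh_two τ hτ k
  have h3 : (3 : ℝ) * hh τ k < hh τ (k + 1) := by nlinarith
  exact_mod_cast h3

include hτ in
lemma hh_mono : StrictMono (hh τ) :=
  strictMono_nat_of_lt_succ (fun k => by
    have := hh_three τ hτ k
    have := hh_two τ hτ k
    omega)

/-- free positions -/
def Fr (τ : ℝ) (m : ℕ) : Prop := ∃ k, 8 * hh τ k + 1 < m ∧ m < 10 * hh τ k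

/-- positions where the digit is one -/
def Fx (τ : ℝ) (m : ℕ) : Prop := ∃ k, m = 8 * hh τ k + 1 ∨ m = 10 * hh τ k

open Classical in
/-- the digits -/
noncomputable def dd (τ : ℝ) (t : ℝ) (m : ℕ) : ℤ :=
  if Fx τ m then 1 else if Fr τ m then
    Pool.Agent.H664.DimLower.digit 2 (Nat.count (Fr τ) m) t else 0

lemma dd_nonneg (t : ℝ) (m : ℕ) : 0 ≤ dd τ t m := by
  unfold dd
  split_ifs
  · norm_num
  · exact Pool.Agent.H664.DimLower.digit_nonneg (by norm_num) _ _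
  · exact le_refl _

lemma dd_le (t : ℝ) (m : ℕ) : dd τ t m ≤ 1 := by
  unfold dd
  split_ifs
  · exact le_refl _
  · have h2 := Pool.Agent.H664.DimLower.digit_lt (N := 2) (by norm_num)
      (@Nat.count (Fr τ) (fun a => Classical.propDecidable _) m) t
    push_cast at h2
    omega
  · norm_num

/-- the point with parameter `t` -/
noncomputable def X (τ : ℝ) (t : ℝ) : ℝ := tl (dd τ t) 0

include hτ in
lemma not_fix (k m : ℕ) (h1 : 10 * hh τ k < m) (h2 : m < 8 * hh τ (k + 1) + 1) : ¬ Fx τ m ∧ ¬ Fr τ m := by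
  have hm := hh_mono τ hτ
  have key : ∀ j, (m < 8 * hh τ j + 1) ∨ (10 * hh τ j < m) := by
    intro j
    rcases Nat.lt_or_ge k j with h | h
    · left
      have := hm.monotone h
      simp only [Nat.succ_eq_add_one] at this
      omega
    · right
      have := hm.monotone h
      omega
  constructor
  · rintro ⟨j, h | h⟩
    · rcases key j with h' | h'
      · omega
      · have := hh_two τ hτ j; omega
    · rcases key j with h' | h'
      · have := hh_two τ hτ j; omega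
      · omega
  · rintro ⟨j, h, h''⟩
    rcases key j with h' | h' <;> omega

include hτ in
lemma good (t : ℝ) (k : ℕ) : ∃ A : ℤ, ¬ (3 : ℤ) ∣ A ∧
    1 / 3 ^ (8 * hh τ (k + 1) + 1) ≤ X τ t - (A : ℝ) / 3 ^ (10 * hh τ k) ∧
    X τ t - (A : ℝ) / 3 ^ (10 * hh τ k) ≤ 1 / (2 * 3 ^ (8 * hh τ (k + 1))) := by
  obtain ⟨A, h1, h2, h3⟩ := approx (dd τ t) (dd_nonneg τ t) (dd_le τ t) (10 * hh τ k)
    (8 * hh τ (k + 1) + 1) (by have := hh_three τ hτ k; omega)
    (by unfold dd; rw [if_pos ⟨k, Or.inr rfl⟩])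
    (fun m hm hm' => by
      obtain ⟨h1, h2⟩ := not_fix τ hτ k m hm hm'
      unfold dd
      rw [if_neg h1, if_neg h2])
    (by unfold dd; rw [if_pos ⟨k + 1, Or.inl rfl⟩])
  refine ⟨A, h1, h2, h3.trans (le_of_eq ?_)⟩
  rw [pow_succ]
  field_simp

include hτ in
lemma X_mem (t : ℝ) : X τ t ∈ Set.Ico (0 : ℝ) 1 := by
  refine ⟨tl_nonneg _ (dd_nonneg τ t) 0, ?_⟩
  have h1 : dd τ t 0 = 0 := by
    unfold dd
    rw [if_neg, if_neg]
    · rintro ⟨k, h, _⟩; omega
    · rintro ⟨k, h | h⟩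
      · omega
      · have := hh_two τ hτ k; omega
  unfold X
  rw [tl_step _ (dd_nonneg τ t) (dd_le τ t) 0, h1]
  have := tl_le _ (dd_nonneg τ t) (dd_le τ t) (0 + 1)
  norm_num at this ⊢
  linarith

end pattern

end Run7.h384.WS
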