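import Mathlib
import Pool.Agent.Run7.h384.WSA
import Pool.Agent.Run7.h384.WSB
import Pool.Agent.Run7.h384.WSC

/-! Growth of the quadratic sums at the points `X τ t`. -/

set_option autoImplicit false

namespace Run7.h384.WS

open Finset
open Pool.Agent.H520R3 (e e_zero norm_e)

/-- Weyl's inequality in the form we use -/
lemma weyl_use (x α K : ℝ) (hα : 1 / 2 ≤ α) (hK : 0 ≤ K) (a : ℤ) (q : ℕ) (hq : 0 < q)
    (hcop : IsCoprime a (q : ℤ)) (hx : |x - a / q| ≤ 1 / (q : ℝ) ^ 2) (M : ℕ) (hM : 1 ≤ M)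
    (h1 : (q : ℝ) ≤ (M : ℝ) ^ (2 * α)) (h2 : (M : ℝ) ^ 2 ≤ K * q * (M : ℝ) ^ (2 * α))
    (hα1 : α ≤ 1) :
    ‖∑ n ∈ range M, e (x * (n : ℝ) ^ 2)‖ ^ 2 ≤
      (48 * K + 36) * ((M : ℝ) ^ (2 * α) * (1 + Real.log M)) := by
  have hM1 : (1 : ℝ) ≤ M := by exact_mod_cast hM
  have hM0 : (0 : ℝ) < M := by linarith
  have hq0 : (0 : ℝ) < q := by exact_mod_cast hq
  have hw := weyl x 0 a q hq hcop hx M
  simp only [zero_mul, add_zero] at hw
  refine hw.trans ?_
  set P : ℝ := (M : ℝ) ^ (2 * α) with hP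
  have hP0 : 0 < P := Real.rpow_pos_of_pos hM0 _
  have hMP : (M : ℝ) ≤ P := by
    calc (M : ℝ) = (M : ℝ) ^ (1 : ℝ) := (Real.rpow_one _).symm
      _ ≤ _ := Real.rpow_le_rpow_of_exponent_le hM1 (by linarith)
  have hlogq0 : 0 ≤ Real.log q := Real.log_nonneg (by exact_mod_cast hq)
  have hlogM0 : 0 ≤ Real.log M := Real.log_nonneg hM1
  have hlogq : Real.log q ≤ 2 * Real.log M := by
    calc Real.log q ≤ Real.log P := Real.log_le_log hq0 h1
      _ = 2 * α * Real.log M := by rw [hP, Real.log_rpow hM0]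
      _ ≤ 2 * Real.log M := by nlinarith
  have hMq : (M : ℝ) ^ 2 / q ≤ K * P := by
    rw [div_le_iff₀ hq0]
    linarith
  set ℓ : ℝ := 1 + Real.log q with hℓ
  have hℓ1 : 1 ≤ ℓ := by linarith
  have hℓ2 : ℓ ≤ 2 * (1 + Real.log M) := by linarith
  have e1 : 2 * ((2 * (M : ℝ) / q + 1) * (6 * M + q * ℓ)) =
      24 * ((M : ℝ) ^ 2 / q) + 4 * (M * ℓ) + 12 * M + 2 * (q * ℓ) := by
    field_simp
    ring
  rw [e1]
  have a1 : 24 * ((M : ℝ) ^ 2 / q) ≤ 24 * K * P * ℓ := by
    have : K * P ≤ K * P * ℓ := le_mul_of_one_le_right (by positivity) hℓ1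
    linarith
  have a2 : 4 * (M * ℓ) ≤ 4 * P * ℓ := by nlinarith
  have a3 : 12 * (M : ℝ) ≤ 12 * P * ℓ := by nlinarith
  have a4 : 2 * (q * ℓ) ≤ 2 * P * ℓ := by nlinarith
  have a5 : (24 * K + 18) * P * ℓ ≤ (24 * K + 18) * P * (2 * (1 + Real.log M)) :=
    mul_le_mul_of_nonneg_left hℓ2 (by positivity)
  nlinarith

section

variable (α : ℝ) (hα : 2 / 3 < α) (hα1 : α < 1)

include hα hα1

lemma tau_gt : 3 < 1 / (1 - α) := by
  rw [lt_div_iff₀ (by linarith)]
  linarith

lemma H1 (k : ℕ) : 10 * (hh (1 / (1 - α)) k : ℝ) < 8 * (1 - α) * hh (1 / (1 - α)) (k + 1) := by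
  have h1 := hh_lt (1 / (1 - α)) (tau_gt α hα hα1) k
  have h2 : 0 < 1 - α := by linarith
  have h3 := mul_lt_mul_of_pos_left h1 (show 0 < 8 * (1 - α) by linarith)
  have h4 : 8 * (1 - α) * (5 / 4 * (1 / (1 - α)) * (hh (1 / (1 - α)) k : ℝ)) =
      10 * (hh (1 / (1 - α)) k : ℝ) := by
    field_simp
    ring
  rwa [h4] at h3

lemma H2 (k : ℕ) : 8 * (1 - α) * (hh (1 / (1 - α)) (k + 1) : ℝ) ≤ 10 * hh (1 / (1 - α)) k + 3 := by
  have h1 := hh_le (1 / (1 - α)) (tau_gt α hα hα1) k
  have h2 : 0 < 1 - α := by linarith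
  have h3 := mul_le_mul_of_nonneg_left h1 (show 0 ≤ 8 * (1 - α) by linarith)
  have h4 : 8 * (1 - α) * (5 / 4 * (1 / (1 - α)) * (hh (1 / (1 - α)) k : ℝ) + 1) =
      10 * (hh (1 / (1 - α)) k : ℝ) + 8 * (1 - α) := by
    field_simp
    ring
  rw [h4] at h3
  linarith

/-- a good rational approximation for every length -/
lemma exists_approx (t : ℝ) (M : ℕ) (hM : 3 ^ (4 * hh (1 / (1 - α)) 1) ≤ M) :
    ∃ (a : ℤ) (q : ℕ), 0 < q ∧ IsCoprime a (q : ℤ) ∧
      |X (1 / (1 - α)) t - a / q| ≤ 1 / (q : ℝ) ^ 2 ∧ (q : ℝ) ≤ (M : ℝ) ^ (2 * α) ∧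
      (M : ℝ) ^ 2 ≤ 243 * q * (M : ℝ) ^ (2 * α) := by
  set τ := 1 / (1 - α) with hτdef
  have hτ : 3 < τ := tau_gt α hα hα1
  set x := X τ t with hx
  have hmono := hh_mono τ hτ
  have h1 : 0 < 1 - α := by linarith
  have hM1 : 1 ≤ M := le_trans (Nat.one_le_pow _ _ (by norm_num)) hM
  have hM1r : (1 : ℝ) ≤ M := by exact_mod_cast hM1
  have hM0 : (0 : ℝ) < M := by linarith
  -- choose the scale
  obtain ⟨k, hk1, hk2⟩ : ∃ k, 3 ^ (4 * hh τ (k + 1)) ≤ M ∧ M < 3 ^ (4 * hh τ (k + 2)) := by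
    have hex : ∃ k, M < 3 ^ (4 * hh τ (k + 2)) := by
      refine ⟨M, ?_⟩
      have h2 : M + 2 ≤ hh τ (M + 2) := hmono.id_le _
      calc M < 3 ^ M := Nat.lt_pow_self (by norm_num)
        _ ≤ 3 ^ (4 * hh τ (M + 2)) := Nat.pow_le_pow_right (by norm_num) (by omega)
    classical
    refine ⟨Nat.find hex, ?_, Nat.find_spec hex⟩
    rcases Nat.eq_zero_or_pos (Nat.find hex) with h0 | h0
    · rw [h0]; exact hM
    · have h3 := Nat.find_min hex (m := Nat.find hex - 1) (by omega)
      rw [not_lt] at h3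
      have h4 : Nat.find hex - 1 + 2 = Nat.find hex + 1 := by omega
      rwa [h4] at h3
  set h : ℕ := hh τ (k + 1) with hh_def
  set hm : ℕ := hh τ k with hm_def
  set hp : ℕ := hh τ (k + 2) with hp_def
  have H1a : 10 * (h : ℝ) < 8 * (1 - α) * hp := H1 α hα hα1 (k + 1)
  have H2a : 8 * (1 - α) * (hp : ℝ) ≤ 10 * h + 3 := H2 α hα hα1 (k + 1)
  have H1b : 10 * (hm : ℝ) < 8 * (1 - α) * h := H1 α hα hα1 k
  have H2b : 8 * (1 - α) * (h : ℝ) ≤ 10 * hm + 3 := H2 α hα hα1 k
  have hh2 : (2 : ℝ) ≤ h := by exact_mod_cast hh_two τ hτ (k + 1)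
  have hthree : 3 * h < hp := hh_three τ hτ (k + 1)
  -- logarithmic size
  set L : ℝ := Real.log M / Real.log 3 with hL
  have hlog3 : 0 < Real.log 3 := Real.log_pos (by norm_num)
  have hML : (M : ℝ) = (3 : ℝ) ^ L := by
    rw [hL, Real.rpow_def_of_pos (by norm_num : (0 : ℝ) < 3), mul_div_cancel₀ _ hlog3.ne',
      Real.exp_log hM0]
  have h13 : (1 : ℝ) < 3 := by norm_num
  have hL1 : 4 * (h : ℝ) ≤ L := by
    rw [← Real.rpow_le_rpow_left_iff h13, ← hML]
    have : ((3 ^ (4 * h) : ℕ) : ℝ) ≤ M := by exact_mod_cast hk1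
    push_cast at this
    rw [← Real.rpow_natCast] at this
    push_cast at this
    exact this
  have hL2 : L < 4 * (hp : ℝ) := by
    rw [← Real.rpow_lt_rpow_left_iff h13, ← hML]
    have : (M : ℝ) < ((3 ^ (4 * hp) : ℕ) : ℝ) := by exact_mod_cast hk2
    push_cast at this
    rw [← Real.rpow_natCast] at this
    push_cast at this
    exact this
  have hP : (M : ℝ) ^ (2 * α) = (3 : ℝ) ^ (2 * α * L) := by
    rw [hML, ← Real.rpow_mul (by norm_num)]
    congr 1; ring
  have hMsq : (M : ℝ) ^ 2 = (3 : ℝ) ^ ((2 - 2 * α) * L) * (M : ℝ) ^ (2 * α) := by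
    rw [hP, ← Real.rpow_add (by norm_num), hML, ← Real.rpow_natCast, ← Real.rpow_mul (by norm_num)]
    congr 1
    push_cast
    ring
  have hP0 : 0 < (M : ℝ) ^ (2 * α) := Real.rpow_pos_of_pos hM0 _
  -- it is enough to compare exponents
  have fin : ∀ q : ℕ, (3 : ℝ) ^ ((2 - 2 * α) * L) ≤ 243 * q → (M : ℝ) ^ 2 ≤ 243 * q * (M : ℝ) ^ (2 * α) := by
    intro q hq
    rw [hMsq]
    exact mul_le_mul_of_nonneg_right hq hP0.le
  have pw : ∀ n : ℕ, (3 : ℝ) ^ n = (3 : ℝ) ^ (n : ℝ) := fun n => (Real.rpow_natCast _ _).symm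
  rcases le_or_gt ((3 : ℝ) ^ (10 * h)) ((M : ℝ) ^ (2 * α)) with hcase | hcase
  · -- first case
    obtain ⟨A, hA1, hA2, hA3⟩ := good τ hτ t (k + 1)
    refine ⟨A, 3 ^ (10 * h), by positivity, ?_, ?_, ?_, ?_⟩
    · push_cast
      apply IsCoprime.pow_right
      rw [isCoprime_comm]
      exact (Prime.coprime_iff_not_dvd Int.prime_three).2 hA1
    · push_cast
      rw [abs_of_nonneg (le_trans (by positivity) hA2)]
      refine hA3.trans ?_
      rw [← pow_mul, div_le_div_iff₀ (by positivity) (by positivity), one_mul, one_mul]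
      calc (3 : ℝ) ^ (10 * h * 2) ≤ 3 ^ (8 * hp) := pow_le_pow_right₀ (by norm_num) (by omega)
        _ ≤ 2 * 3 ^ (8 * hp) := by
          have : (0 : ℝ) < 3 ^ (8 * hp) := by positivity
          linarith
    · push_cast
      exact hcase
    · apply fin
      push_cast
      rw [show (243 : ℝ) = 3 ^ 5 by norm_num, ← pow_add, pw, Real.rpow_le_rpow_left_iff h13]
      push_cast
      have h22 := mul_le_mul_of_nonneg_left hL2.le (show 0 ≤ 2 - 2 * α by linarith)
      linarith
  · -- second case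
    have hcase' : 2 * α * L < 10 * h := by
      rw [hP, pw, Real.rpow_lt_rpow_left_iff h13] at hcase
      push_cast at hcase
      exact hcase
    obtain ⟨A, hA1, hA2, hA3⟩ := good τ hτ t k
    have hP1 : 1 ≤ (M : ℝ) ^ (2 * α) := Real.one_le_rpow hM1r (by linarith)
    set n : ℕ := ⌊(M : ℝ) ^ (2 * α)⌋₊ with hn
    have hn0 : 0 < n := Nat.floor_pos.2 hP1
    obtain ⟨r, hr1, hr2⟩ := Real.exists_rat_abs_sub_le_and_den_le x hn0
    have hnP : (n : ℝ) ≤ (M : ℝ) ^ (2 * α) := Nat.floor_le hP0.le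
    have hnP' : (M : ℝ) ^ (2 * α) < n + 1 := Nat.lt_floor_add_one _
    have hr0 : 0 < r.den := r.den_pos
    have hr0r : (0 : ℝ) < r.den := by exact_mod_cast hr0
    have hr2r : (r.den : ℝ) ≤ n := by exact_mod_cast hr2
    have hrval : ((r : ℚ) : ℝ) = (r.num : ℝ) / (r.den : ℝ) := Rat.cast_def r
    rw [hrval] at hr1
    refine ⟨r.num, r.den, hr0, ?_, ?_, hr2r.trans hnP, ?_⟩
    · rw [Int.isCoprime_iff_gcd_eq_one]
      exact r.reduced
    · refine hr1.trans ?_
      rw [div_le_div_iff₀ (by positivity) (by positivity)]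
      nlinarith
    · apply fin
      -- distance to the rational
      have hd : |x - (r.num : ℝ) / r.den| ≤ 1 / ((M : ℝ) ^ (2 * α) * r.den) := by
        refine hr1.trans ?_
        apply div_le_div_of_nonneg_left (by norm_num) (by positivity)
        exact mul_le_mul_of_nonneg_right hnP'.le hr0r.le
      by_cases hD : r.num * 3 ^ (10 * hm) - A * (r.den : ℤ) = 0
      · -- the same rational
        have hdvd : (3 : ℤ) ^ (10 * hm) ∣ r.den := by
          have h5 : IsCoprime ((3 : ℤ) ^ (10 * hm)) A := by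
            apply IsCoprime.pow_left
            exact (Prime.coprime_iff_not_dvd Int.prime_three).2 hA1
          apply h5.dvd_of_dvd_mul_left
          exact ⟨r.num, by linarith⟩
        have hle : (3 : ℝ) ^ (10 * hm) ≤ r.den := by
          have := Int.le_of_dvd (by exact_mod_cast hr0) hdvd
          exact_mod_cast this
        have heq : (r.num : ℝ) / r.den = (A : ℝ) / 3 ^ (10 * hm) := by
          rw [div_eq_div_iff hr0r.ne' (by positivity)]
          have : (r.num : ℝ) * 3 ^ (10 * hm) - A * (r.den : ℝ) = 0 := by exact_mod_cast hD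
          linarith
        rw [heq] at hd
        have h6 : 1 / (3 : ℝ) ^ (8 * h + 1) ≤ 1 / ((M : ℝ) ^ (2 * α) * r.den) :=
          hA2.trans ((le_abs_self _).trans hd)
        rw [one_div_le_one_div (by positivity) (by positivity)] at h6
        have h7 : (M : ℝ) ^ (2 * α) * 3 ^ (10 * hm) ≤ 3 ^ (8 * h + 1) :=
          le_trans (mul_le_mul_of_nonneg_left hle hP0.le) h6
        rw [hP, pw, pw, ← Real.rpow_add (by norm_num), Real.rpow_le_rpow_left_iff h13] at h7
        push_cast at h7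
        have h8 : (3 : ℝ) ^ ((2 - 2 * α) * L) ≤ 243 * 3 ^ (10 * hm) := by
          rw [show (243 : ℝ) = 3 ^ 5 by norm_num, ← pow_add, pw, Real.rpow_le_rpow_left_iff h13]
          push_cast
          have h9 : 2 * α * L ≤ 8 * α * h + 4 := by linarith
          have h10 : L ≤ 4 * h + 3 := by
            by_contra hcon
            push Not at hcon
            have h16 := mul_lt_mul_of_pos_left hcon (show 0 < α by linarith)
            linarith
          have h17 := mul_le_mul_of_nonneg_left h10 (show 0 ≤ 2 - 2 * α by linarith)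
          linarith
        linarith
      · -- different rationals
        have h5 : 1 / ((r.den : ℝ) * 3 ^ (10 * hm)) ≤ |(r.num : ℝ) / r.den - (A : ℝ) / 3 ^ (10 * hm)| := by
          have e1 : (r.num : ℝ) / r.den - (A : ℝ) / 3 ^ (10 * hm) =
              ((r.num * 3 ^ (10 * hm) - A * (r.den : ℤ) : ℤ) : ℝ) / ((r.den : ℝ) * 3 ^ (10 * hm)) := by
            push_cast
            field_simp
          rw [e1, abs_div, abs_of_pos (show (0 : ℝ) < (r.den : ℝ) * 3 ^ (10 * hm) by positivity)]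
          apply div_le_div_of_nonneg_right _ (by positivity)
          have := Int.one_le_abs hD
          exact_mod_cast this
        have h6 : |(r.num : ℝ) / r.den - (A : ℝ) / 3 ^ (10 * hm)| ≤
            1 / ((M : ℝ) ^ (2 * α) * r.den) + 1 / (2 * 3 ^ (8 * h)) := by
          have e2 : (r.num : ℝ) / r.den - (A : ℝ) / 3 ^ (10 * hm) =
              -(x - (r.num : ℝ) / r.den) + (x - (A : ℝ) / 3 ^ (10 * hm)) := by ring
          rw [e2]
          refine (abs_add_le _ _).trans ?_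
          rw [abs_neg]
          apply add_le_add hd
          rw [abs_of_nonneg (le_trans (by positivity) hA2)]
          exact hA3
        have h7 : 2 * (3 : ℝ) ^ (10 * hm) ≤ (M : ℝ) ^ (2 * α) := by
          calc 2 * (3 : ℝ) ^ (10 * hm) ≤ 3 ^ 1 * 3 ^ (10 * hm) := by
                have : (0 : ℝ) < 3 ^ (10 * hm) := by positivity
                linarith
            _ = (3 : ℝ) ^ ((1 + 10 * hm : ℕ) : ℝ) := by rw [← pow_add, pw]
            _ ≤ _ := by
              rw [hP, Real.rpow_le_rpow_left_iff h13]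
              push_cast
              have h19 := mul_le_mul_of_nonneg_left hL1 (show 0 ≤ 2 * α by linarith)
              have h20 : (1 - α) * (h : ℝ) ≤ 1 / 3 * h :=
                mul_le_mul_of_nonneg_right (by linarith) (by linarith)
              have h21 : 2 / 3 * (h : ℝ) ≤ α * h :=
                mul_le_mul_of_nonneg_right (by linarith) (by linarith)
              linarith
        have h8 : 1 / ((M : ℝ) ^ (2 * α) * r.den) ≤ 1 / (2 * ((r.den : ℝ) * 3 ^ (10 * hm))) := by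
          apply div_le_div_of_nonneg_left (by norm_num) (by positivity)
          nlinarith
        have h9 : 1 / ((r.den : ℝ) * 3 ^ (10 * hm)) =
            1 / (2 * ((r.den : ℝ) * 3 ^ (10 * hm))) + 1 / (2 * ((r.den : ℝ) * 3 ^ (10 * hm))) := by
          field_simp
          norm_num
        have h10 : 1 / (2 * ((r.den : ℝ) * 3 ^ (10 * hm))) ≤ 1 / (2 * 3 ^ (8 * h)) := by linarith
        rw [one_div_le_one_div (by positivity) (by positivity)] at h10
        have h11 : (3 : ℝ) ^ (8 * h) ≤ r.den * 3 ^ (10 * hm) := by linarith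
        have h12 : (3 : ℝ) ^ ((2 - 2 * α) * L) * 3 ^ (10 * hm) ≤ 3 ^ (8 * h) := by
          rw [pw, pw, ← Real.rpow_add (by norm_num), Real.rpow_le_rpow_left_iff h13]
          push_cast
          -- (2-2α) L ≤ 5 h
          have hLpos : 0 ≤ L := by linarith
          have h13' : (2 - 2 * α) * L ≤ α * L := mul_le_mul_of_nonneg_right (by linarith) hLpos
          have h18 : (1 - α) * (h : ℝ) ≤ 1 / 3 * h :=
            mul_le_mul_of_nonneg_right (by linarith) (by linarith)
          linarith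
        have h14 : (0 : ℝ) < 3 ^ (10 * hm) := by positivity
        have h15 : (3 : ℝ) ^ ((2 - 2 * α) * L) ≤ r.den := by
          by_contra hcon
          push Not at hcon
          have := mul_lt_mul_of_pos_right hcon h14
          linarith
        linarith

end

end Run7.h384.WS
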