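import Mathlib
import Pool.Agent.Run7.h384.WSD

/-! The growth exponent of the quadratic sums at the points `X τ t`. -/

set_option autoImplicit false

namespace Run7.h384.WS

open Finset Filter
open Pool.Agent.H520R3 (e e_zero norm_e)

/-- the quadratic sum -/
noncomputable def S (x : ℝ) (N : ℕ) : ℂ := ∑ n ∈ Icc 1 N, e (x * (n : ℝ) ^ 2)

lemma S_eq (x : ℝ) (N : ℕ) : S x N = ∑ n ∈ range (N + 1), e (x * (n : ℝ) ^ 2) - 1 := by
  induction N with
  | zero => simp [S, e_zero]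
  | succ N ih =>
    have h1 : S x (N + 1) = S x N + e (x * ((N + 1 : ℕ) : ℝ) ^ 2) := by
      unfold S
      rw [sum_Icc_succ_top (by omega)]
    rw [h1, ih, sum_range_succ _ (N + 1)]
    ring

lemma norm_S_le (x : ℝ) (N : ℕ) : ‖S x N‖ ≤ ‖∑ n ∈ range (N + 1), e (x * (n : ℝ) ^ 2)‖ + 1 := by
  rw [S_eq]
  refine (norm_sub_le _ _).trans ?_
  rw [norm_one]

lemma le_norm_S (x : ℝ) (N : ℕ) : ‖∑ n ∈ range (N + 1), e (x * (n : ℝ) ^ 2)‖ - 1 ≤ ‖S x N‖ := by
  rw [S_eq]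
  have := norm_sub_norm_le (∑ n ∈ range (N + 1), e (x * (n : ℝ) ^ 2)) 1
  rwa [norm_one] at this

section

variable (α : ℝ) (hα : 2 / 3 < α) (hα1 : α < 1)

include hα hα1

lemma upper (t ε : ℝ) (hε : 0 < ε) :
    ∀ᶠ N : ℕ in atTop, ‖S (X (1 / (1 - α)) t) N‖ ≤ (N : ℝ) ^ (α + ε) := by
  set x := X (1 / (1 - α)) t with hx
  set C : ℝ := 48 * 243 + 36 with hC
  have hC0 : 0 < C := by rw [hC]; norm_num
  have hlim : Tendsto (fun N : ℕ => (16 * C * (2 + Real.log N)) / (N : ℝ) ^ (2 * ε)) atTop (nhds 0) := by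
    have h1 : Tendsto (fun y : ℝ => (16 * C * (2 + Real.log y)) / y ^ (2 * ε)) atTop (nhds 0) := by
      have h2 : Tendsto (fun y : ℝ => Real.log y / y ^ (2 * ε)) atTop (nhds 0) :=
        (isLittleO_log_rpow_atTop (by positivity : 0 < 2 * ε)).tendsto_div_nhds_zero
      have h3 : Tendsto (fun y : ℝ => 2 / y ^ (2 * ε)) atTop (nhds 0) :=
        (tendsto_rpow_atTop (by positivity : 0 < 2 * ε)).const_div_atTop 2
      have h4 := (h3.add h2).const_mul (16 * C)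
      rw [add_zero, mul_zero] at h4
      refine h4.congr (fun y => ?_)
      ring
    exact h1.comp tendsto_natCast_atTop_atTop
  have hev1 := hlim.eventually (gt_mem_nhds (show (0 : ℝ) < 1 by norm_num))
  filter_upwards [hev1, eventually_ge_atTop (3 ^ (4 * hh (1 / (1 - α)) 1)), eventually_ge_atTop 4]
    with N hN1 hN2 hN3
  have hN0 : (4 : ℝ) ≤ N := by exact_mod_cast hN3
  have hNpos : (0 : ℝ) < N := by linarith
  have hP0 : 0 < (N : ℝ) ^ (2 * ε) := Real.rpow_pos_of_pos hNpos _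
  rw [div_lt_one hP0] at hN1
  obtain ⟨a, q, hq, hcop, h1, h2, h3⟩ := exists_approx α hα hα1 t (N + 1) (by omega)
  have hw := weyl_use x α 243 (by linarith) (by norm_num) a q hq hcop h1 (N + 1) (by omega) h2 h3 hα1.le
  rw [← hC] at hw
  push_cast at hw
  -- compare
  have e1 : ((N : ℝ) + 1) ^ (2 * α) ≤ 4 * (N : ℝ) ^ (2 * α) := by
    calc ((N : ℝ) + 1) ^ (2 * α) ≤ (2 * N) ^ (2 * α) :=
          Real.rpow_le_rpow (by linarith) (by linarith) (by linarith)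
      _ = 2 ^ (2 * α) * (N : ℝ) ^ (2 * α) := by rw [Real.mul_rpow (by norm_num) hNpos.le]
      _ ≤ 2 ^ (2 : ℝ) * (N : ℝ) ^ (2 * α) := by
          apply mul_le_mul_of_nonneg_right _ (Real.rpow_nonneg hNpos.le _)
          exact Real.rpow_le_rpow_of_exponent_le (by norm_num) (by linarith)
      _ = _ := by norm_num
  have e2 : 1 + Real.log ((N : ℝ) + 1) ≤ 2 + Real.log N := by
    have h4 : Real.log ((N : ℝ) + 1) ≤ Real.log (2 * N) := Real.log_le_log (by linarith) (by linarith)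
    rw [Real.log_mul (by norm_num) hNpos.ne'] at h4
    have h5 : Real.log 2 < 1 := by
      have := Real.log_two_lt_d9
      linarith
    linarith
  have hlog0 : 0 ≤ Real.log N := Real.log_nonneg (by linarith)
  have e3 : ‖∑ n ∈ range (N + 1), e (x * (n : ℝ) ^ 2)‖ ^ 2 ≤ ((1 / 2) * (N : ℝ) ^ (α + ε)) ^ 2 := by
    refine hw.trans ?_
    have e4 : ((1 / 2) * (N : ℝ) ^ (α + ε)) ^ 2 = 1 / 4 * ((N : ℝ) ^ (2 * α) * (N : ℝ) ^ (2 * ε)) := by
      rw [mul_pow, ← Real.rpow_natCast, ← Real.rpow_natCast ((N : ℝ) ^ (α + ε)), ← Real.rpow_mul hNpos.le,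
        ← Real.rpow_add hNpos]
      norm_num
      congr 1
      ring
    rw [e4]
    have hPα : 0 < (N : ℝ) ^ (2 * α) := Real.rpow_pos_of_pos hNpos _
    calc C * (((N : ℝ) + 1) ^ (2 * α) * (1 + Real.log ((N : ℝ) + 1)))
        ≤ C * ((4 * (N : ℝ) ^ (2 * α)) * (2 + Real.log N)) := by
          apply mul_le_mul_of_nonneg_left _ hC0.le
          apply mul_le_mul e1 e2 _ (by positivity)
          have : 0 ≤ Real.log ((N : ℝ) + 1) := Real.log_nonneg (by linarith)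
          linarith
      _ = 1 / 4 * ((N : ℝ) ^ (2 * α) * (16 * C * (2 + Real.log N))) := by ring
      _ ≤ _ := by
          apply mul_le_mul_of_nonneg_left _ (by norm_num)
          exact mul_le_mul_of_nonneg_left hN1.le hPα.le
  have e5 : ‖∑ n ∈ range (N + 1), e (x * (n : ℝ) ^ 2)‖ ≤ (1 / 2) * (N : ℝ) ^ (α + ε) := by
    apply le_of_sq_le_sq e3 (by positivity)
  have e6 : 1 ≤ (1 / 2) * (N : ℝ) ^ (α + ε) := by
    have h6 : (4 : ℝ) ^ (1 / 2 : ℝ) ≤ (N : ℝ) ^ (α + ε) := by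
      calc (4 : ℝ) ^ (1 / 2 : ℝ) ≤ (N : ℝ) ^ (1 / 2 : ℝ) :=
            Real.rpow_le_rpow (by norm_num) hN0 (by norm_num)
        _ ≤ _ := Real.rpow_le_rpow_of_exponent_le (by linarith) (by linarith)
    have h7 : (4 : ℝ) ^ (1 / 2 : ℝ) = 2 := by
      rw [show (4 : ℝ) = 2 ^ (2 : ℝ) by norm_num, ← Real.rpow_mul (by norm_num)]
      norm_num
    rw [h7] at h6
    linarith
  have := norm_S_le x N
  linarith

lemma lowerS (t : ℝ) : ∃ᶠ N : ℕ in atTop, (N : ℝ) ^ α / 24 ≤ ‖S (X (1 / (1 - α)) t) N‖ := by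
  set τ := 1 / (1 - α) with hτdef
  have hτ : 3 < τ := tau_gt α hα hα1
  set x := X τ t with hx
  have hmono := hh_mono τ hτ
  rw [frequently_atTop]
  intro N0
  -- choose k large
  obtain ⟨k, hk1, hk2⟩ : ∃ k : ℕ, (4 : ℝ) ≤ 5 * (τ - 3) * hh τ k ∧ N0 ≤ k := by
    obtain ⟨k0, hk0⟩ := exists_nat_gt (4 / (5 * (τ - 3)))
    refine ⟨max k0 N0, ?_, le_max_right _ _⟩
    have h1 : (k0 : ℝ) ≤ hh τ (max k0 N0) := by
      have h2 : max k0 N0 ≤ hh τ (max k0 N0) := hmono.id_le _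
      exact_mod_cast (le_max_left k0 N0).trans h2
    have h3 : 4 / (5 * (τ - 3)) ≤ hh τ (max k0 N0) := hk0.le.trans h1
    rw [div_le_iff₀ (by nlinarith)] at h3
    linarith
  set h := hh τ k with hhd
  set hp := hh τ (k + 1) with hpd
  have hlt : 5 / 4 * τ * h < hp := hh_lt τ hτ k
  have hh2 : 2 ≤ h := hh_two τ hτ k
  have hthree : 3 * h < hp := hh_three τ hτ k
  obtain ⟨A, hA1, hA2, hA3⟩ := good τ hτ t k
  set N : ℕ := 3 ^ (4 * hp - 1) with hN
  have hN9 : (3 : ℕ) ≤ N := by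
    calc 3 = 3 ^ 1 := by norm_num
      _ ≤ _ := Nat.pow_le_pow_right (by norm_num) (by omega)
  have hN9r : (3 : ℝ) ≤ N := by exact_mod_cast hN9
  have hNr : (3 : ℝ) * N = 3 ^ (4 * hp) := by
    rw [hN]
    push_cast
    have h15 : 4 * hp - 1 + 1 = 4 * hp := by omega
    rw [← pow_succ', h15]
  refine ⟨N, ?_, ?_⟩
  · have h4 : k ≤ hh τ k := hmono.id_le _
    have h5 : 4 * hp - 1 < 3 ^ (4 * hp - 1) := Nat.lt_pow_self (by norm_num)
    omega
  set β : ℝ := x - (A : ℝ) / 3 ^ (10 * h) with hβ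
  have hβ0 : 0 ≤ β := le_trans (by positivity) hA2
  have hβM : β * ((N + 1 : ℕ) : ℝ) ^ 2 ≤ 1 / 8 := by
    have h6 : ((N + 1 : ℕ) : ℝ) ≤ 4 / 3 * N := by push_cast; linarith
    have h7 : (N : ℝ) ^ 2 = 3 ^ (8 * hp) / 9 := by
      have : (3 * (N : ℝ)) ^ 2 = (3 ^ (4 * hp)) ^ 2 := by rw [hNr]
      rw [← pow_mul, show 4 * hp * 2 = 8 * hp by ring] at this
      linarith
    calc β * ((N + 1 : ℕ) : ℝ) ^ 2 ≤ 1 / (2 * 3 ^ (8 * hp)) * (4 / 3 * N) ^ 2 := by
          apply mul_le_mul hA3 (pow_le_pow_left₀ (by positivity) h6 2) (by positivity) (by positivity)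
      _ = 1 / (2 * 3 ^ (8 * hp)) * (16 / 9 * (3 ^ (8 * hp) / 9)) := by rw [mul_pow, h7]; norm_num
      _ = 8 / 81 := by field_simp; norm_num
      _ ≤ 1 / 8 := by norm_num
  have hlow := lower A hA1 (5 * h) β hβ0 (N + 1) hβM
  have h9 : (9 : ℝ) ^ (5 * h) = 3 ^ (10 * h) := by
    rw [show (9 : ℝ) = 3 ^ 2 by norm_num, ← pow_mul]
    congr 1
    ring
  rw [h9] at hlow
  have hxval : (A : ℝ) / 3 ^ (10 * h) + β = x := by rw [hβ]; ring
  rw [hxval] at hlow
  have h10 := le_norm_S x N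
  -- numerics
  have h13 : (1 : ℝ) < 3 := by norm_num
  have hexp : 15 * h + 4 ≤ 4 * hp := by
    have : (15 * h + 4 : ℝ) < 4 * hp := by nlinarith
    have h14 : 15 * h + 4 < 4 * hp := by exact_mod_cast this
    omega
  have hbig : 27 * (3 : ℝ) ^ (10 * h) ≤ N / 3 ^ (5 * h) := by
    rw [le_div_iff₀ (by positivity)]
    have : (27 : ℝ) * 3 ^ (10 * h) * 3 ^ (5 * h) * 3 ≤ 3 ^ (4 * hp) := by
      calc (27 : ℝ) * 3 ^ (10 * h) * 3 ^ (5 * h) * 3 = 3 ^ (15 * h + 4) := by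
            rw [show (27 : ℝ) = 3 ^ 3 by norm_num]
            ring
        _ ≤ _ := pow_le_pow_right₀ h13.le hexp
    linarith
  have h3pos : (0 : ℝ) < 3 ^ (10 * h) := by positivity
  have h3one : (1 : ℝ) ≤ 3 ^ (10 * h) := one_le_pow₀ h13.le
  have hS : (N : ℝ) / (8 * 3 ^ (5 * h)) ≤ ‖S x N‖ := by
    have e1 : ((N + 1 : ℕ) : ℝ) / (2 * 3 ^ (5 * h)) = N / 3 ^ (5 * h) / 2 + 1 / (2 * 3 ^ (5 * h)) := by
      push_cast
      field_simp
    have e2 : (N : ℝ) / (8 * 3 ^ (5 * h)) = N / 3 ^ (5 * h) / 8 := by field_simp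
    have e3 : (0 : ℝ) ≤ 1 / (2 * 3 ^ (5 * h)) := by positivity
    rw [e1] at hlow
    rw [e2]
    linarith
  refine le_trans ?_ hS
  -- N^α / 24 ≤ N / (8 * 3^(5h))
  have hNpos : (0 : ℝ) < N := by linarith
  have hNα : (N : ℝ) ^ α * 3 ^ (5 * h) ≤ 3 * N := by
    have e4 : (N : ℝ) = (3 : ℝ) ^ (4 * (hp : ℝ) - 1) := by
      rw [Real.rpow_sub (by norm_num), Real.rpow_one]
      have : (3 : ℝ) ^ (4 * (hp : ℝ)) = 3 ^ (4 * hp) := by
        rw [← Real.rpow_natCast]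
        push_cast
        rfl
      rw [this, ← hNr]
      field_simp
    rw [e4, ← Real.rpow_mul (by norm_num), ← Real.rpow_natCast, ← Real.rpow_add (by norm_num)]
    have e5 : (3 : ℝ) * 3 ^ (4 * (hp : ℝ) - 1) = 3 ^ (1 + (4 * (hp : ℝ) - 1)) := by
      rw [Real.rpow_add (by norm_num), Real.rpow_one]
    rw [e5, Real.rpow_le_rpow_left_iff h13]
    push_cast
    have e6 := H1 α hα hα1 k
    have e7 : (10 : ℝ) * h < 8 * (1 - α) * hp := e6
    nlinarith
  rw [div_le_div_iff₀ (by norm_num) (by positivity)]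
  nlinarith

end

/-! ### growth exponents in `EReal` -/

lemma log_div_le (z : ℂ) (N : ℕ) (hN : 2 ≤ N) (s : ℝ) (h : ‖z‖ ≤ (N : ℝ) ^ s) :
    ENNReal.log ‖z‖ₑ / ((Real.log N : ℝ) : EReal) ≤ (s : EReal) := by
  have hN1 : (1 : ℝ) < N := by exact_mod_cast (by omega : 1 < N)
  have hlog : 0 < Real.log N := Real.log_pos hN1
  have hP : 0 < (N : ℝ) ^ s := Real.rpow_pos_of_pos (by linarith) _
  have h1 : ENNReal.log ‖z‖ₑ ≤ ((s * Real.log N : ℝ) : EReal) := by
    calc ENNReal.log ‖z‖ₑ ≤ ENNReal.log (ENNReal.ofReal ((N : ℝ) ^ s)) := by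
          apply ENNReal.log_le_log
          rw [← ofReal_norm]
          exact ENNReal.ofReal_le_ofReal h
      _ = ((s * Real.log N : ℝ) : EReal) := by
          rw [ENNReal.log_ofReal_of_pos hP, Real.log_rpow (by linarith)]
  calc ENNReal.log ‖z‖ₑ / ((Real.log N : ℝ) : EReal)
      ≤ ((s * Real.log N : ℝ) : EReal) / ((Real.log N : ℝ) : EReal) :=
        EReal.div_le_div_right_of_nonneg (by exact_mod_cast hlog.le) h1
    _ = (s : EReal) := by
        rw [← EReal.coe_div]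
        congr 1
        field_simp

lemma le_log_div (z : ℂ) (N : ℕ) (hN : 2 ≤ N) (s : ℝ) (h : (N : ℝ) ^ s ≤ ‖z‖) :
    (s : EReal) ≤ ENNReal.log ‖z‖ₑ / ((Real.log N : ℝ) : EReal) := by
  have hN1 : (1 : ℝ) < N := by exact_mod_cast (by omega : 1 < N)
  have hlog : 0 < Real.log N := Real.log_pos hN1
  have hP : 0 < (N : ℝ) ^ s := Real.rpow_pos_of_pos (by linarith) _
  have h1 : ((s * Real.log N : ℝ) : EReal) ≤ ENNReal.log ‖z‖ₑ := by
    calc ((s * Real.log N : ℝ) : EReal) = ENNReal.log (ENNReal.ofReal ((N : ℝ) ^ s)) := by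
          rw [ENNReal.log_ofReal_of_pos hP, Real.log_rpow (by linarith)]
      _ ≤ ENNReal.log ‖z‖ₑ := by
          apply ENNReal.log_le_log
          rw [← ofReal_norm]
          exact ENNReal.ofReal_le_ofReal h
  calc (s : EReal) = ((s * Real.log N : ℝ) : EReal) / ((Real.log N : ℝ) : EReal) := by
        rw [← EReal.coe_div]
        congr 1
        field_simp
    _ ≤ _ := EReal.div_le_div_right_of_nonneg (by exact_mod_cast hlog.le) h1

theorem limsup_eq (u : ℕ → ℂ) (α : ℝ) (hup : ∀ ε : ℝ, 0 < ε → ∀ᶠ N : ℕ in atTop, ‖u N‖ ≤ (N : ℝ) ^ (α + ε))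
    (c : ℝ) (hc : 0 < c) (hlow : ∃ᶠ N : ℕ in atTop, (N : ℝ) ^ α / c ≤ ‖u N‖) :
    limsup (fun N : ℕ => ENNReal.log ‖u N‖ₑ / ((Real.log N : ℝ) : EReal)) atTop = (α : EReal) := by
  apply le_antisymm
  · apply le_of_forall_gt_imp_ge_of_dense
    intro b hb
    obtain ⟨r, hr1, hr2⟩ := EReal.lt_iff_exists_real_btwn.1 hb
    refine le_trans ?_ hr2.le
    have hr : 0 < r - α := by
      have : α < r := by exact_mod_cast hr1
      linarith
    apply limsup_le_of_le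
    · exact isCobounded_le_of_bot
    · filter_upwards [hup _ hr, eventually_ge_atTop 2] with N hN hN2
      apply log_div_le _ N hN2
      convert hN using 2
      ring
  · apply le_of_forall_lt_imp_le_of_dense
    intro b hb
    obtain ⟨r, hr1, hr2⟩ := EReal.lt_iff_exists_real_btwn.1 hb
    refine le_trans hr1.le ?_
    have hr : 0 < α - r := by
      have : r < α := by exact_mod_cast hr2
      linarith
    apply le_limsup_of_frequently_le'
    have hev : ∀ᶠ N : ℕ in atTop, c ≤ (N : ℝ) ^ (α - r) :=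
      ((tendsto_rpow_atTop hr).comp tendsto_natCast_atTop_atTop).eventually_ge_atTop c
    refine (hlow.and_eventually (hev.and (eventually_ge_atTop 2))).mono ?_
    rintro N ⟨h1, h2, h3⟩
    apply le_log_div _ N h3
    refine le_trans ?_ h1
    have hN0 : (0 : ℝ) < N := by exact_mod_cast (by omega : 0 < N)
    rw [le_div_iff₀ hc]
    calc (N : ℝ) ^ r * c ≤ (N : ℝ) ^ r * (N : ℝ) ^ (α - r) :=
          mul_le_mul_of_nonneg_left h2 (Real.rpow_nonneg hN0.le _)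
      _ = (N : ℝ) ^ α := by rw [← Real.rpow_add hN0]; congr 1; ring

end Run7.h384.WS
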