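import Mathlib
import Pool.Agent.Run7.h384.WSE

/-! Positive Hausdorff dimension of the set of the points `X τ t`. -/

set_option autoImplicit false

namespace Run7.h384.WS

open Finset Filter
open Pool.Agent.H664.DimLower (digit digit_nonneg digit_lt first_digit)

section

variable (τ : ℝ) (hτ : 3 < τ)

include hτ

lemma fr_not_fx (m : ℕ) (h : Fr τ m) : ¬ Fx τ m := by
  obtain ⟨j, h1, h2⟩ := h
  have hm := hh_mono τ hτ
  rintro ⟨k, hk⟩
  rcases lt_trichotomy k j with hkj | hkj | hkj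
  · have h3 := hm.monotone (Nat.succ_le_of_lt hkj)
    simp only [Nat.succ_eq_add_one] at h3
    have h4 := hh_three τ hτ k
    have h5 := hh_two τ hτ k
    omega
  · subst hkj
    omega
  · have h3 := hm.monotone (Nat.succ_le_of_lt hkj)
    simp only [Nat.succ_eq_add_one] at h3
    have h4 := hh_three τ hτ j
    have h5 := hh_two τ hτ j
    omega

lemma fr_infinite : (Set.ofPred (Fr τ)).Infinite := by
  rw [Set.infinite_iff_exists_gt]
  intro a
  have hm := hh_mono τ hτ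
  have h1 : a + 1 ≤ hh τ (a + 1) := hm.id_le _
  have h2 := hh_two τ hτ (a + 1)
  exact ⟨8 * hh τ (a + 1) + 2, ⟨a + 1, by omega, by omega⟩, by omega⟩

open Classical in
lemma count_lower (k : ℕ) : 2 * hh τ k - 2 ≤ Nat.count (Fr τ) (10 * hh τ k) := by
  rw [Nat.count_eq_card_filter_range]
  refine le_trans ?_ (card_le_card (s := Finset.Ico (8 * hh τ k + 2) (10 * hh τ k)) ?_)
  · rw [Nat.card_Ico]
    omega
  · intro m hm
    rw [mem_Ico] at hm
    rw [mem_filter, mem_range]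
    exact ⟨hm.2, k, by omega, hm.2⟩

open Classical in
lemma nth_linear : ∃ L : ℕ, 1 ≤ L ∧ ∀ n, Nat.nth (Fr τ) n ≤ L * (n + 1) := by
  refine ⟨⌈25 / 2 * τ + 10⌉₊ + 20, by omega, fun n => ?_⟩
  set m := Nat.nth (Fr τ) n with hm
  have hinf := fr_infinite τ hτ
  have hcount : Nat.count (Fr τ) m = n := Nat.count_nth_of_infinite hinf n
  have hmono := hh_mono τ hτ
  rcases Nat.lt_or_ge m (10 * hh τ 0) with h0 | h0
  · have : hh τ 0 = 2 := rfl
    nlinarith
  · obtain ⟨k, hk1, hk2⟩ : ∃ k, 10 * hh τ k ≤ m ∧ m < 10 * hh τ (k + 1) := by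
      have hex : ∃ k, m < 10 * hh τ (k + 1) := by
        refine ⟨m, ?_⟩
        have : m + 1 ≤ hh τ (m + 1) := hmono.id_le _
        omega
      refine ⟨Nat.find hex, ?_, Nat.find_spec hex⟩
      rcases Nat.eq_zero_or_pos (Nat.find hex) with h1 | h1
      · rw [h1]; exact h0
      · have h3 := Nat.find_min hex (m := Nat.find hex - 1) (by omega)
        rw [not_lt] at h3
        have h4 : Nat.find hex - 1 + 1 = Nat.find hex := by omega
        rwa [h4] at h3
    have h1 := count_lower τ hτ k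
    have h2 : Nat.count (Fr τ) (10 * hh τ k) ≤ Nat.count (Fr τ) m := Nat.count_monotone _ hk1
    have h3 := hh_two τ hτ k
    have h4 : hh τ k ≤ n + 1 := by omega
    have h5 := hh_le τ hτ k
    have h6 : (hh τ k : ℝ) ≤ n + 1 := by exact_mod_cast h4
    have h7 : (m : ℝ) < 10 * hh τ (k + 1) := by exact_mod_cast hk2
    have h8 : 25 / 2 * τ + 10 ≤ (⌈25 / 2 * τ + 10⌉₊ : ℝ) := Nat.le_ceil _
    have h9 : (1 : ℝ) ≤ n + 1 := by
      have : (0 : ℝ) ≤ n := Nat.cast_nonneg n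
      linarith
    have h10 : (m : ℝ) ≤ (⌈25 / 2 * τ + 10⌉₊ + 20) * (n + 1) := by
      have h11 : (m : ℝ) ≤ 25 / 2 * τ * hh τ k + 10 := by nlinarith
      have h12 : 25 / 2 * τ * (hh τ k : ℝ) ≤ 25 / 2 * τ * (n + 1) :=
        mul_le_mul_of_nonneg_left h6 (by linarith)
      nlinarith
    exact_mod_cast h10

open Classical in
lemma X_diff {t t' : ℝ} (ht : t ∈ Set.Ico (0 : ℝ) 1) (ht' : t' ∈ Set.Ico (0 : ℝ) 1) (hlt : t < t') :
    ∃ n : ℕ, t' - t ≤ ((2 : ℝ) ^ n)⁻¹ ∧ 1 / (2 * 3 ^ (Nat.nth (Fr τ) n)) ≤ X τ t' - X τ t := by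
  obtain ⟨n, h1, h2, h3⟩ := first_digit (N := 2) le_rfl ht ht' hlt
  push_cast at h1
  refine ⟨n, h1, ?_⟩
  have hinf := fr_infinite τ hτ
  set p := Nat.nth (Fr τ) n with hp
  have hFr : Fr τ p := Nat.nth_mem_of_infinite hinf n
  have hFx : ¬ Fx τ p := fr_not_fx τ hτ p hFr
  have hcount : Nat.count (Fr τ) p = n := Nat.count_nth_of_infinite hinf n
  have e1 : digit 2 n t = 0 ∧ digit 2 n t' = 1 := by
    have a1 := digit_nonneg (N := 2) (by norm_num) n t
    have a2 := digit_lt (N := 2) (by norm_num) n t'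
    push_cast at a2
    omega
  have hdd : ∀ s m, dd τ s m = if Fx τ m then 1 else if Fr τ m then digit 2 (Nat.count (Fr τ) m) s else 0 := by
    intro s m
    unfold dd
    congr
  unfold X
  apply diff_lower (dd τ t) (dd τ t') (dd_nonneg τ t) (dd_le τ t) (dd_nonneg τ t') (dd_le τ t') p
  · intro m hm
    rw [hdd, hdd]
    by_cases c1 : Fx τ m
    · rw [if_pos c1, if_pos c1]
    · rw [if_neg c1, if_neg c1]
      by_cases c2 : Fr τ m
      · rw [if_pos c2, if_pos c2]
        apply h2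
        have h4 : Nat.nth (Fr τ) (Nat.count (Fr τ) m) = m := Nat.nth_count c2
        rw [← (Nat.nth_strictMono hinf).lt_iff_lt, h4]
        exact hm
      · rw [if_neg c2, if_neg c2]
  · rw [hdd, if_neg hFx, if_pos hFr, hcount, e1.1]
  · rw [hdd, if_neg hFx, if_pos hFr, hcount, e1.2]

lemma X_holder : ∃ s C : ℝ, 0 < s ∧ 0 < C ∧ ∀ t ∈ Set.Ico (0 : ℝ) 1, ∀ t' ∈ Set.Ico (0 : ℝ) 1,
    |t - t'| ≤ C * |X τ t - X τ t'| ^ s := by
  obtain ⟨L, hL1, hL⟩ := nth_linear τ hτ
  have hlog2 : 0 < Real.log 2 := Real.log_pos (by norm_num)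
  have hlog3 : 0 < Real.log 3 := Real.log_pos (by norm_num)
  have hL0 : (0 : ℝ) < L := by exact_mod_cast hL1
  set s : ℝ := Real.log 2 / (L * Real.log 3) with hs
  have hs0 : 0 < s := by positivity
  have h3L : ((3 : ℝ) ^ L) ^ s = 2 := by
    rw [← Real.rpow_natCast, ← Real.rpow_mul (by norm_num), hs, Real.rpow_def_of_pos (by norm_num)]
    have : Real.log 3 * (L * (Real.log 2 / (L * Real.log 3))) = Real.log 2 := by
      field_simp
    rw [this, Real.exp_log (by norm_num)]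
  have key : ∀ t ∈ Set.Ico (0 : ℝ) 1, ∀ t' ∈ Set.Ico (0 : ℝ) 1, t < t' →
      |t - t'| ≤ 2 * 2 ^ s * |X τ t - X τ t'| ^ s := by
    intro t ht t' ht' hlt
    obtain ⟨n, h1, h2⟩ := X_diff τ hτ ht ht' hlt
    have h3 : 1 / (2 * (3 : ℝ) ^ (L * (n + 1))) ≤ |X τ t - X τ t'| := by
      rw [abs_sub_comm]
      refine le_trans ?_ (h2.trans (le_abs_self _))
      apply one_div_le_one_div_of_le (by positivity)
      apply mul_le_mul_of_nonneg_left _ (by norm_num)
      exact pow_le_pow_right₀ (by norm_num) (hL n)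
    have h4 : (1 / (2 * (3 : ℝ) ^ (L * (n + 1)))) ^ s = 1 / (2 ^ s * 2 ^ (n + 1)) := by
      rw [Real.div_rpow (by norm_num) (by positivity), Real.one_rpow, Real.mul_rpow (by norm_num) (by positivity)]
      congr 2
      rw [pow_mul, ← Real.rpow_natCast ((3 : ℝ) ^ L) (n + 1), ← Real.rpow_mul (by positivity), mul_comm,
        Real.rpow_mul (by positivity), h3L, Real.rpow_natCast]
    rw [abs_sub_comm, abs_of_pos (by linarith)]
    calc t' - t ≤ ((2 : ℝ) ^ n)⁻¹ := h1
      _ = 2 * 2 ^ s * (1 / (2 ^ s * 2 ^ (n + 1))) := by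
          rw [pow_succ]
          have : (0 : ℝ) < 2 ^ s := Real.rpow_pos_of_pos (by norm_num) _
          field_simp
      _ ≤ 2 * 2 ^ s * |X τ t - X τ t'| ^ s := by
          apply mul_le_mul_of_nonneg_left _ (by positivity)
          rw [← h4]
          exact Real.rpow_le_rpow (by positivity) h3 hs0.le
  refine ⟨s, 2 * 2 ^ s, hs0, by positivity, ?_⟩
  intro t ht t' ht'
  rcases lt_trichotomy t t' with h | h | h
  · exact key t ht t' ht' h
  · subst h
    simp only [sub_self, abs_zero]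
    positivity
  · rw [abs_sub_comm, abs_sub_comm (X τ t)]
    exact key t' ht' t ht h

theorem dimH_pos : 0 < dimH (X τ '' Set.Ico (0 : ℝ) 1) := by
  obtain ⟨s, C, hs, hC, hH⟩ := X_holder τ hτ
  have hinj : Set.InjOn (X τ) (Set.Ico (0 : ℝ) 1) := by
    intro t ht t' ht' h
    have := hH t ht t' ht'
    rw [h, sub_self, abs_zero, Real.zero_rpow hs.ne', mul_zero] at this
    have := abs_nonpos_iff.1 this
    linarith
  set g : ℝ → ℝ := Function.invFunOn (X τ) (Set.Ico (0 : ℝ) 1) with hg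
  have hgX : ∀ t ∈ Set.Ico (0 : ℝ) 1, g (X τ t) = t := by
    intro t ht
    exact hinj.leftInvOn_invFunOn ht
  have hhold : HolderOnWith (Real.toNNReal C) (Real.toNNReal s) g (X τ '' Set.Ico (0 : ℝ) 1) := by
    rintro _ ⟨t, ht, rfl⟩ _ ⟨t', ht', rfl⟩
    rw [hgX t ht, hgX t' ht', edist_dist, edist_dist, Real.dist_eq, Real.dist_eq,
      Real.coe_toNNReal s hs.le]
    calc ENNReal.ofReal |t - t'| ≤ ENNReal.ofReal (C * |X τ t - X τ t'| ^ s) :=
          ENNReal.ofReal_le_ofReal (hH t ht t' ht')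
      _ = ENNReal.ofReal C * ENNReal.ofReal |X τ t - X τ t'| ^ s := by
          rw [ENNReal.ofReal_mul hC.le, ENNReal.ofReal_rpow_of_nonneg (abs_nonneg _) hs.le]
      _ = _ := rfl
  have himg : g '' (X τ '' Set.Ico (0 : ℝ) 1) = Set.Ico (0 : ℝ) 1 := by
    ext t
    constructor
    · rintro ⟨_, ⟨t', ht', rfl⟩, rfl⟩
      rw [hgX t' ht']
      exact ht'
    · intro ht
      exact ⟨X τ t, ⟨t, ht, rfl⟩, hgX t ht⟩
  have h1 := hhold.dimH_image_le (Real.toNNReal_pos.2 hs)
  rw [himg] at h1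
  have h2 : dimH (Set.Ico (0 : ℝ) 1) = 1 := by
    have h3 : (interior (Set.Ico (0 : ℝ) 1)).Nonempty := by
      rw [interior_Ico]
      exact ⟨1 / 2, by norm_num, by norm_num⟩
    have := Real.dimH_of_nonempty_interior h3
    simpa using this
  rw [h2] at h1
  rw [pos_iff_ne_zero]
  intro h0
  rw [h0, ENNReal.zero_div] at h1
  norm_num at h1

end

end Run7.h384.WS
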