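import Mathlib

/-!
# Grothendieck's lemma: separately continuous functions and weak continuity

Let `A`, `K` be compact spaces and `F : A × K → ℝ` bounded and separately continuous.  Then for
every continuous linear functional `φ` on `C(K, ℝ)` the function `a ↦ φ (F a)` is continuous.
-/

open Topology Filter Set

namespace Run7.h384.WAP

section Angelic

variable {A K : Type*} [TopologicalSpace A] [TopologicalSpace K]

/-- Countable tightness. -/
theorem exists_countable_tight [CompactSpace K]
    (F : A → K → ℝ) (hF1 : ∀ a, Continuous (F a)) (hF2 : ∀ k, Continuous fun a => F a k)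
    {B : Set A} {a₀ : A} (ha : a₀ ∈ closure B) :
    ∃ D : Set A, D.Countable ∧ D ⊆ B ∧ ∀ (n : ℕ) (κ : Fin n → K),
      ∃ d ∈ D, ∀ i, |F d (κ i) - F a₀ (κ i)| < 1 / ((n : ℝ) + 1) := by
  have key : ∀ n : ℕ, ∃ t : Set A, t.Finite ∧ t ⊆ B ∧ ∀ (κ : Fin n → K),
      ∃ d ∈ t, ∀ i, |F d (κ i) - F a₀ (κ i)| < 1 / ((n : ℝ) + 1) := by
    intro n
    have h1 : ∀ κ : Fin n → K, ∃ b ∈ B, ∀ i, |F b (κ i) - F a₀ (κ i)| < 1 / ((n : ℝ) + 1) := by
      intro κ
      have hopen : {a | ∀ i, |F a (κ i) - F a₀ (κ i)| < 1 / ((n : ℝ) + 1)} ∈ 𝓝 a₀ := by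
        apply IsOpen.mem_nhds
        · simp only [setOf_forall]
          exact isOpen_iInter_of_finite fun i =>
            isOpen_lt (((hF2 (κ i)).sub continuous_const).abs) continuous_const
        · intro i
          simp only [sub_self, abs_zero]
          positivity
      rcases mem_closure_iff_nhds.1 ha _ hopen with ⟨b, hb1, hb2⟩
      exact ⟨b, hb2, hb1⟩
    choose b hbB hb using h1
    obtain ⟨t, ht⟩ := CompactSpace.elim_nhds_subcover
      (fun κ : Fin n → K => {κ' : Fin n → K | ∀ i, |F (b κ) (κ' i) - F a₀ (κ' i)| < 1 / ((n : ℝ) + 1)})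
      (fun κ => by
        apply IsOpen.mem_nhds
        · simp only [setOf_forall]
          exact isOpen_iInter_of_finite fun i =>
            isOpen_lt ((((hF1 (b κ)).comp (continuous_apply i)).sub
              ((hF1 a₀).comp (continuous_apply i))).abs) continuous_const
        · exact hb κ)
    refine ⟨b '' (t : Set (Fin n → K)), t.finite_toSet.image _, ?_, ?_⟩
    · rintro _ ⟨κ, -, rfl⟩
      exact hbB κ
    · intro κ
      have : κ ∈ (⊤ : Set (Fin n → K)) := trivial
      rw [← ht] at this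
      simp only [mem_iUnion] at this
      obtain ⟨κ', hκ', h⟩ := this
      exact ⟨b κ', ⟨κ', hκ', rfl⟩, h⟩
  choose t ht1 ht2 ht3 using key
  refine ⟨⋃ n, t n, countable_iUnion fun n => (ht1 n).countable, iUnion_subset ht2, ?_⟩
  intro n κ
  obtain ⟨d, hd, h⟩ := ht3 n κ
  exact ⟨d, mem_iUnion.2 ⟨n, hd⟩, h⟩

/-- Pointwise compact sets of continuous functions on a compact space are Fréchet–Urysohn. -/
theorem exists_seq_pointwise [CompactSpace A] [CompactSpace K]
    (F : A → K → ℝ) (hF1 : ∀ a, Continuous (F a)) (hF2 : ∀ k, Continuous fun a => F a k)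
    {B : Set A} {a₀ : A} (ha : a₀ ∈ closure B) :
    ∃ b : ℕ → A, (∀ n, b n ∈ B) ∧ ∀ k, Tendsto (fun n => F (b n) k) atTop (𝓝 (F a₀ k)) := by
  obtain ⟨D, hDc, hDB, hD⟩ := exists_countable_tight F hF1 hF2 ha
  have hFcont : Continuous F := continuous_pi hF2
  -- the compact set of all `F a`
  have hcomp : IsCompact (range F) := isCompact_range hFcont
  set Z : Set (K → ℝ) := closure (F '' D) with hZ
  have hZsub : Z ⊆ range F := closure_minimal (image_subset_range _ _) hcomp.isClosed
  have hZcomp : IsCompact Z := hcomp.of_isClosed_subset isClosed_closure hZsub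
  have hZcont : ∀ g ∈ Z, Continuous g := by
    intro g hg
    obtain ⟨a, rfl⟩ := hZsub hg
    exact hF1 a
  -- `F a₀ ∈ Z`
  have h0 : F a₀ ∈ Z := by
    rw [hZ, mem_closure_iff_nhds]
    intro U hU
    rw [nhds_pi, Filter.mem_pi] at hU
    obtain ⟨I, hI, V, hV, hVU⟩ := hU
    have hI' : I.Finite := hI
    -- enumerate
    obtain ⟨m, hm⟩ : ∃ m : ℕ, ∃ κ : Fin m → K, I ⊆ range κ ∧ ∀ i ∈ I, ∀ y : ℝ,
        |y - F a₀ i| < 1 / ((m : ℝ) + 1) → y ∈ V i := by
      have hε : ∃ ε > 0, ∀ i ∈ I, ∀ y : ℝ, |y - F a₀ i| < ε → y ∈ V i := by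
        have : ∀ i, ∃ ε > 0, ∀ y : ℝ, |y - F a₀ i| < ε → y ∈ V i := by
          intro i
          obtain ⟨ε, hε, h⟩ := Metric.mem_nhds_iff.1 (hV i)
          exact ⟨ε, hε, fun y hy => h (by rw [Metric.mem_ball, Real.dist_eq]; exact hy)⟩
        choose ε hεpos hε using this
        rcases I.eq_empty_or_nonempty with hIe | hIne
        · exact ⟨1, one_pos, by simp [hIe]⟩
        · obtain ⟨j, hj, hjmin⟩ := hI'.toFinset.exists_min_image ε
            (by simpa [Set.Finite.toFinset_nonempty] using hIne)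
          refine ⟨ε j, hεpos j, fun i hi y hy => hε i y (lt_of_lt_of_le hy ?_)⟩
          exact hjmin i (by simpa using hi)
      obtain ⟨ε, hεpos, hε⟩ := hε
      obtain ⟨N, hN⟩ := exists_nat_one_div_lt hεpos
      rcases I.eq_empty_or_nonempty with hIe | ⟨i0, hi0⟩
      · refine ⟨0, Fin.elim0, by simp [hIe], by simp [hIe]⟩
      · -- list of elements of I, padded by i0
        let l : List K := hI'.toFinset.toList ++ List.replicate N i0
        refine ⟨l.length, l.get, ?_, ?_⟩
        · intro i hi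
          have : i ∈ l := by
            simp only [l, List.mem_append, Finset.mem_toList, Set.Finite.mem_toFinset]
            exact Or.inl hi
          obtain ⟨n, hn⟩ := List.get_of_mem this
          exact ⟨n, hn⟩
        · intro i hi y hy
          refine hε i hi y (lt_of_lt_of_le hy (le_trans ?_ hN.le))
          have : (N : ℝ) ≤ (l.length : ℝ) := by
            have : N ≤ l.length := by simp [l]
            exact_mod_cast this
          exact one_div_le_one_div_of_le (by positivity) (by linarith)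
    obtain ⟨κ, hκ1, hκ2⟩ := hm
    obtain ⟨d, hdD, hd⟩ := hD m κ
    refine ⟨F d, hVU ?_, ⟨d, hdD, rfl⟩⟩
    intro i hi
    obtain ⟨j, rfl⟩ := hκ1 hi
    exact hκ2 _ hi _ (hd j)
  -- countable separating set
  haveI : Countable D := hDc.to_subtype
  let Ψ : K → (D → ℝ) := fun k d => F d k
  have hΨ : Continuous Ψ := continuous_pi fun d => hF1 d
  obtain ⟨Q, hQc, hQd⟩ : ∃ Q : Set K, Q.Countable ∧
      ∀ k : K, ∃ u : Ultrafilter K, Q ∈ u ∧ Tendsto Ψ u (𝓝 (Ψ k)) := by
    letI tK : TopologicalSpace K := TopologicalSpace.induced Ψ inferInstance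
    haveI : @SecondCountableTopology K tK := TopologicalSpace.secondCountableTopology_induced _ _ _
    obtain ⟨Q, hQc, hQd⟩ := @TopologicalSpace.exists_countable_dense K tK _
    refine ⟨Q, hQc, fun k => ?_⟩
    obtain ⟨u, hu1, hu2⟩ := mem_closure_iff_ultrafilter.1 (hQd k)
    refine ⟨u, hu1, ?_⟩
    have hc : @Continuous K (D → ℝ) tK _ Ψ := continuous_induced_dom
    exact (hc.tendsto k).mono_left hu2
  have hfib : ∀ g ∈ Z, ∀ k k', Ψ k = Ψ k' → g k = g k' := by
    intro g hg k k' hkk
    have hcl : IsClosed {g : K → ℝ | g k = g k'} :=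
      isClosed_eq (continuous_apply k) (continuous_apply k')
    have : Z ⊆ {g : K → ℝ | g k = g k'} := by
      apply closure_minimal _ hcl
      rintro _ ⟨d, hd, rfl⟩
      exact congrFun hkk ⟨d, hd⟩
    exact this hg
  have hinj : ∀ g ∈ Z, ∀ g' ∈ Z, (∀ q ∈ Q, g q = g' q) → g = g' := by
    intro g hg g' hg' hgg
    ext k
    obtain ⟨u, hu1, hu2⟩ := hQd k
    obtain ⟨k', -, hk'⟩ := isCompact_univ.ultrafilter_le_nhds u (by simp)
    have e1 : Ψ k' = Ψ k := tendsto_nhds_unique ((hΨ.tendsto k').mono_left hk') hu2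
    rw [← hfib g hg k' k e1, ← hfib g' hg' k' k e1]
    have t1 : Tendsto g u (𝓝 (g k')) := ((hZcont g hg).tendsto k').mono_left hk'
    have t2 : Tendsto g' u (𝓝 (g' k')) := ((hZcont g' hg').tendsto k').mono_left hk'
    refine tendsto_nhds_unique_of_eventuallyEq t1 t2 ?_
    filter_upwards [hu1] with q hq using hgg q hq
  -- first countability of Z
  haveI : CompactSpace Z := isCompact_iff_compactSpace.1 hZcomp
  haveI : Countable Q := hQc.to_subtype
  let ev : Z → (Q → ℝ) := fun g q => g.1 q
  have hev : Continuous ev := continuous_pi fun q => (continuous_apply (q : K)).comp continuous_subtype_val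
  have hevinj : Function.Injective ev := by
    intro g g' h
    apply Subtype.ext
    exact hinj g.1 g.2 g'.1 g'.2 fun q hq => congrFun h ⟨q, hq⟩
  have hemb : IsClosedEmbedding ev := hev.isClosedEmbedding hevinj
  haveI : FirstCountableTopology Z := hemb.isInducing.firstCountableTopology
  have hcl : (⟨F a₀, h0⟩ : Z) ∈ closure (Subtype.val ⁻¹' (F '' D) : Set Z) := by
    rw [closure_subtype]
    have : (Subtype.val '' (Subtype.val ⁻¹' (F '' D) : Set Z)) = F '' D := by
      rw [Subtype.image_preimage_coe]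
      exact inter_eq_right.2 subset_closure
    rw [this]
    exact h0
  obtain ⟨x, hx1, hx2⟩ := mem_closure_iff_seq_limit.1 hcl
  have : ∀ n, ∃ d ∈ D, F d = (x n).1 := fun n => hx1 n
  choose b hbD hb using this
  refine ⟨b, fun n => hDB (hbD n), fun k => ?_⟩
  have h3 : Tendsto (fun n => (x n).1) atTop (𝓝 (F a₀)) :=
    (continuous_subtype_val.tendsto _).comp hx2
  have h4 := (tendsto_pi_nhds.1 h3) k
  refine h4.congr fun n => ?_
  rw [hb n]

end Angelic

end Run7.h384.WAP
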