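import Mathlib
import Pool.Agent.Run7.h384.WAPA

/-!
# Grothendieck's lemma, second part: bounded pointwise convergence implies weak convergence
in `C(K, ℝ)`, and separately continuous functions.
-/

open Topology Filter Set MeasureTheory
open scoped NNReal CompactlySupported

namespace Run7.h384.WAP

section Variation

variable {K : Type*} [TopologicalSpace K] [CompactSpace K]

/-- The values `φ g` for `|g| ≤ f`. -/
def varSet (φ : C(K, ℝ) →L[ℝ] ℝ) (f : K → ℝ) : Set ℝ :=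
  {r | ∃ g : C(K, ℝ), (∀ x, |g x| ≤ f x) ∧ φ g = r}

theorem varSet_nonempty (φ : C(K, ℝ) →L[ℝ] ℝ) {f : K → ℝ} (hf : ∀ x, 0 ≤ f x) :
    (0 : ℝ) ∈ varSet φ f := ⟨0, fun x => by simpa using hf x, by simp⟩

theorem varSet_bddAbove (φ : C(K, ℝ) →L[ℝ] ℝ) {f : K → ℝ} (hf : Continuous f) :
    BddAbove (varSet φ f) := by
  refine ⟨‖φ‖ * ‖(⟨f, hf⟩ : C(K, ℝ))‖, ?_⟩
  rintro r ⟨g, hg, rfl⟩
  refine (le_abs_self _).trans ((φ.le_opNorm g).trans ?_)
  refine mul_le_mul_of_nonneg_left ?_ (norm_nonneg _)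
  rw [ContinuousMap.norm_le _ (norm_nonneg _)]
  intro x
  refine (hg x).trans ?_
  exact (le_abs_self _).trans ((⟨f, hf⟩ : C(K, ℝ)).norm_coe_le_norm x)

/-- The variation functional. -/
noncomputable def vari (φ : C(K, ℝ) →L[ℝ] ℝ) (f : K → ℝ) : ℝ := sSup (varSet φ f)

theorem vari_nonneg (φ : C(K, ℝ) →L[ℝ] ℝ) {f : K → ℝ} (hf : Continuous f) (hf0 : ∀ x, 0 ≤ f x) :
    0 ≤ vari φ f := le_csSup (varSet_bddAbove φ hf) (varSet_nonempty φ hf0)

theorem le_vari (φ : C(K, ℝ) →L[ℝ] ℝ) {f : K → ℝ} (hf : Continuous f) (g : C(K, ℝ))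
    (hg : ∀ x, |g x| ≤ f x) : φ g ≤ vari φ f := le_csSup (varSet_bddAbove φ hf) ⟨g, hg, rfl⟩

theorem abs_le_vari (φ : C(K, ℝ) →L[ℝ] ℝ) (g : C(K, ℝ)) : |φ g| ≤ vari φ fun x => |g x| := by
  have hc : Continuous fun x => |g x| := g.continuous.abs
  rw [abs_le]
  constructor
  · have := le_vari φ hc (-g) (fun x => by simp)
    rw [map_neg] at this
    linarith
  · exact le_vari φ hc g (fun x => le_rfl)

theorem vari_add (φ : C(K, ℝ) →L[ℝ] ℝ) {f₁ f₂ : K → ℝ} (h1 : Continuous f₁) (h2 : Continuous f₂)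
    (h1' : ∀ x, 0 ≤ f₁ x) (h2' : ∀ x, 0 ≤ f₂ x) :
    vari φ (fun x => f₁ x + f₂ x) = vari φ f₁ + vari φ f₂ := by
  apply le_antisymm
  · refine csSup_le ⟨0, varSet_nonempty φ fun x => add_nonneg (h1' x) (h2' x)⟩ ?_
    rintro r ⟨g, hg, rfl⟩
    let g₁ : C(K, ℝ) := ⟨fun x => max (-f₁ x) (min (g x) (f₁ x)), by fun_prop⟩
    let g₂ : C(K, ℝ) := g - g₁
    have e : φ g = φ g₁ + φ g₂ := by
      rw [← map_add]
      congr 1
      simp [g₂]
    rw [e]
    refine add_le_add (le_vari φ h1 g₁ fun x => ?_) (le_vari φ h2 g₂ fun x => ?_)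
    · change |max (-f₁ x) (min (g x) (f₁ x))| ≤ f₁ x
      rw [abs_le]
      exact ⟨le_max_left _ _, max_le (by linarith [h1' x]) (min_le_right _ _)⟩
    · change |g x - max (-f₁ x) (min (g x) (f₁ x))| ≤ f₂ x
      have hgx := abs_le.1 (hg x)
      have a1 := h1' x
      have a2 := h2' x
      rcases le_total (g x) (f₁ x) with h | h
      · rw [min_eq_left h]
        rcases le_total (-f₁ x) (g x) with h' | h'
        · rw [max_eq_right h']
          simpa using a2
        · rw [max_eq_left h', abs_le]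
          constructor <;> linarith [hgx.1, hgx.2]
      · rw [min_eq_right h, max_eq_right (by linarith), abs_le]
        constructor <;> linarith [hgx.1, hgx.2]
  · rw [vari, vari, ← csSup_add ⟨0, varSet_nonempty φ h1'⟩ (varSet_bddAbove φ h1)
      ⟨0, varSet_nonempty φ h2'⟩ (varSet_bddAbove φ h2)]
    refine csSup_le_csSup (varSet_bddAbove φ (h1.add h2)) ?_ ?_
    · exact Set.Nonempty.add ⟨0, varSet_nonempty φ h1'⟩ ⟨0, varSet_nonempty φ h2'⟩
    · rintro _ ⟨_, ⟨g₁, hg₁, rfl⟩, _, ⟨g₂, hg₂, rfl⟩, rfl⟩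
      refine ⟨g₁ + g₂, fun x => ?_, map_add φ g₁ g₂⟩
      exact (abs_add_le _ _).trans (add_le_add (hg₁ x) (hg₂ x))

theorem vari_smul (φ : C(K, ℝ) →L[ℝ] ℝ) {f : K → ℝ} {c : ℝ} (hc : 0 ≤ c) :
    vari φ (fun x => c * f x) = c * vari φ f := by
  rcases hc.eq_or_lt with rfl | hc
  · simp only [zero_mul]
    have : varSet φ (fun _ : K => (0 : ℝ)) = {0} := by
      ext r
      constructor
      · rintro ⟨g, hg, rfl⟩
        have : g = 0 := by
          ext x
          have := hg x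
          exact abs_eq_zero.1 (le_antisymm this (abs_nonneg _))
        simp [this]
      · rintro rfl
        exact varSet_nonempty φ fun x => le_rfl
    rw [vari, this, csSup_singleton]
  · rw [vari, vari, ← smul_eq_mul, ← Real.sSup_smul_of_nonneg hc.le]
    congr 1
    ext r
    rw [Set.mem_smul_set]
    constructor
    · rintro ⟨g, hg, rfl⟩
      refine ⟨φ (c⁻¹ • g), ⟨c⁻¹ • g, fun x => ?_, rfl⟩, ?_⟩
      · rw [ContinuousMap.smul_apply, smul_eq_mul, abs_mul, abs_of_pos (inv_pos.2 hc),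
          inv_mul_le_iff₀ hc]
        exact hg x
      · rw [map_smul, smul_eq_mul, smul_eq_mul, mul_inv_cancel_left₀ hc.ne']
    · rintro ⟨_, ⟨g, hg, rfl⟩, rfl⟩
      refine ⟨c • g, fun x => ?_, map_smul φ c g⟩
      rw [ContinuousMap.smul_apply, smul_eq_mul, abs_mul, abs_of_pos hc]
      exact mul_le_mul_of_nonneg_left (hg x) hc.le

theorem vari_nn_nonneg (φ : C(K, ℝ) →L[ℝ] ℝ) (f : C_c(K, ℝ≥0)) :
    0 ≤ vari φ fun x => (f x : ℝ) :=
  vari_nonneg φ (by fun_prop) fun x => (f x).coe_nonneg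

/-- The variation functional as an `ℝ≥0`-linear functional on `C_c(K, ℝ≥0)`. -/
noncomputable def variL (φ : C(K, ℝ) →L[ℝ] ℝ) : C_c(K, ℝ≥0) →ₗ[ℝ≥0] ℝ≥0 where
  toFun f := Real.toNNReal (vari φ fun x => (f x : ℝ))
  map_add' f g := by
    apply NNReal.coe_injective
    rw [NNReal.coe_add, Real.coe_toNNReal _ (vari_nn_nonneg φ _),
      Real.coe_toNNReal _ (vari_nn_nonneg φ _), Real.coe_toNNReal _ (vari_nn_nonneg φ _),
      ← vari_add φ (by fun_prop) (by fun_prop) (fun x => (f x).coe_nonneg)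
        fun x => (g x).coe_nonneg]
    congr 1
  map_smul' c f := by
    apply NNReal.coe_injective
    rw [RingHom.id_apply, smul_eq_mul, NNReal.coe_mul, Real.coe_toNNReal _ (vari_nn_nonneg φ _),
      Real.coe_toNNReal _ (vari_nn_nonneg φ _), ← vari_smul φ c.coe_nonneg]
    congr 1

theorem variL_coe (φ : C(K, ℝ) →L[ℝ] ℝ) (f : C_c(K, ℝ≥0)) :
    ((variL φ f : ℝ≥0) : ℝ) = vari φ fun x => (f x : ℝ) :=
  Real.coe_toNNReal _ (vari_nn_nonneg φ _)

end Variation

section Sequences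

variable {K : Type*} [TopologicalSpace K] [CompactSpace K] [T2Space K]

/-- bounded pointwise convergent sequences converge weakly in `C(K, ℝ)`. -/
theorem tendsto_of_pointwise (φ : C(K, ℝ) →L[ℝ] ℝ) (b : ℕ → C(K, ℝ)) (b₀ : C(K, ℝ)) (M : ℝ)
    (hM : ∀ n x, |b n x| ≤ M) (hlim : ∀ x, Tendsto (fun n => b n x) atTop (𝓝 (b₀ x))) :
    Tendsto (fun n => φ (b n)) atTop (𝓝 (φ b₀)) := by
  borelize K
  let μ := NNRealRMK.rieszMeasure (variL φ)
  haveI : IsFiniteMeasure μ := by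
    have : μ.Regular := NNRealRMK.rieszMeasure_regular _
    infer_instance
  have hM0 : ∀ x, |b₀ x| ≤ M := fun x =>
    le_of_tendsto ((hlim x).abs) (Eventually.of_forall fun n => hM n x)
  have key : ∀ n, |φ (b n) - φ b₀| ≤ ∫ x, |b n x - b₀ x| ∂μ := by
    intro n
    let f : C_c(K, ℝ≥0) := CompactlySupportedContinuousMap.continuousMapEquiv
      ⟨fun x => ‖b n x - b₀ x‖₊, by fun_prop⟩
    have h1 := NNRealRMK.integral_rieszMeasure (variL φ) f
    have h2 : ∫ x, |b n x - b₀ x| ∂μ = ∫ x, (f x : ℝ) ∂μ := rfl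
    rw [h2, h1, variL_coe, ← map_sub]
    exact abs_le_vari φ (b n - b₀)
  have hint : Tendsto (fun n => ∫ x, |b n x - b₀ x| ∂μ) atTop (𝓝 (∫ _, (0 : ℝ) ∂μ)) := by
    refine tendsto_integral_of_dominated_convergence (fun _ => 2 * M) ?_ ?_ ?_ ?_
    · intro n
      exact (Continuous.aestronglyMeasurable (by fun_prop))
    · exact integrable_const _
    · intro n
      refine Eventually.of_forall fun x => ?_
      rw [Real.norm_eq_abs, abs_abs]
      calc |b n x - b₀ x| ≤ |b n x| + |b₀ x| := abs_sub _ _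
        _ ≤ 2 * M := by linarith [hM n x, hM0 x]
    · refine Eventually.of_forall fun x => ?_
      have := ((hlim x).sub_const (b₀ x)).abs
      simpa using this
  rw [integral_zero] at hint
  rw [tendsto_iff_dist_tendsto_zero]
  refine squeeze_zero (fun n => dist_nonneg) (fun n => ?_) hint
  rw [Real.dist_eq]
  exact key n

/-- **Grothendieck's lemma.** -/
theorem continuous_functional {A : Type*} [TopologicalSpace A] [CompactSpace A]
    (φ : C(K, ℝ) →L[ℝ] ℝ) (F : A → C(K, ℝ)) (M : ℝ) (hM : ∀ a x, |F a x| ≤ M)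
    (hF : ∀ x, Continuous fun a => F a x) : Continuous fun a => φ (F a) := by
  rw [continuous_iff_continuousAt]
  intro a₀
  by_contra hcon
  rw [Metric.continuousAt_iff'] at hcon
  push Not at hcon
  obtain ⟨ε, hε, hfreq⟩ := hcon
  have hmem : a₀ ∈ closure {a | ε ≤ dist (φ (F a)) (φ (F a₀))} := by
    rw [mem_closure_iff_frequently]
    exact hfreq
  obtain ⟨b, hb1, hb2⟩ := exists_seq_pointwise (fun a => (F a : K → ℝ))
    (fun a => (F a).continuous) hF hmem
  have hlim := tendsto_of_pointwise φ (fun n => F (b n)) (F a₀) M (fun n x => hM _ x) hb2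
  have h3 := Metric.tendsto_atTop.1 hlim ε hε
  obtain ⟨N, hN⟩ := h3
  have := hN N le_rfl
  have h4 : ε ≤ dist (φ (F (b N))) (φ (F a₀)) := hb1 N
  linarith

end Sequences

end Run7.h384.WAP
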