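import Mathlib
import Pool.Agent.Run7.h384.WAPB

/-!
# Dynamics of a quasi-equicontinuous semigroup with an invariant positive functional
-/

open Topology Filter Set

namespace Run7.h384.WAP

section Support

variable {K : Type*} [TopologicalSpace K] [CompactSpace K] [T2Space K]

/-- Support of a functional on `C(K, ℝ)`. -/
def supp (M : C(K, ℝ) →L[ℝ] ℝ) : Set K :=
  {y | ∀ f : C(K, ℝ), (∀ x, 0 ≤ f x) → 0 < f y → 0 < M f}

theorem isClosed_supp (M : C(K, ℝ) →L[ℝ] ℝ) : IsClosed (supp M) := by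
  rw [← isOpen_compl_iff, isOpen_iff_mem_nhds]
  intro y hy
  simp only [supp, mem_compl_iff, mem_setOf_eq, not_forall] at hy
  obtain ⟨f, hf, hfy, hM⟩ := hy
  have : {z | 0 < f z} ∈ 𝓝 y := (isOpen_lt continuous_const f.continuous).mem_nhds hfy
  filter_upwards [this] with z hz hcon
  exact hM (hcon f hf hz)

/-- A nonnegative function vanishing on the support has zero integral. -/
theorem eq_zero_of_vanish (M : C(K, ℝ) →L[ℝ] ℝ) (hpos : ∀ f : C(K, ℝ), (∀ x, 0 ≤ f x) → 0 ≤ M f)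
    (hone : M 1 = 1) (g : C(K, ℝ)) (hg : ∀ x, 0 ≤ g x) (hgs : ∀ x ∈ supp M, g x = 0) :
    M g = 0 := by
  apply le_antisymm _ (hpos g hg)
  refine le_of_forall_pos_le_add fun ε hε => ?_
  rw [zero_add]
  -- compact set where `g ≥ ε`
  have hcomp : IsCompact {x | ε ≤ g x} := (isClosed_le continuous_const g.continuous).isCompact
  have hex : ∀ x ∈ {x | ε ≤ g x}, ∃ f : C(K, ℝ), (∀ z, 0 ≤ f z) ∧ 0 < f x ∧ M f = 0 := by
    intro x hx
    have hxs : x ∉ supp M := by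
      intro hxs
      have := hgs x hxs
      have hx' : ε ≤ g x := hx
      linarith
    simp only [supp, mem_setOf_eq, not_forall] at hxs
    obtain ⟨f, hf, hfx, hM⟩ := hxs
    exact ⟨f, hf, hfx, le_antisymm (not_lt.1 hM) (hpos f hf)⟩
  choose! f hf0 hfx hfM using hex
  obtain ⟨t, ht, hcov⟩ := hcomp.elim_nhds_subcover (fun x => {z | 0 < f x z})
    (fun x hx => (isOpen_lt continuous_const (f x).continuous).mem_nhds (hfx x hx))
  let G : C(K, ℝ) := ∑ x ∈ t, f x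
  have hGM : M G = 0 := by
    simp only [G, map_sum]
    exact Finset.sum_eq_zero fun x hx => hfM x (ht x hx)
  have hGapp : ∀ z, G z = ∑ x ∈ t, f x z := fun z => by simp [G]
  have hG0 : ∀ z, 0 ≤ G z := fun z => by
    rw [hGapp]
    exact Finset.sum_nonneg fun x hx => hf0 x (ht x hx) z
  have hGpos : ∀ z ∈ {x | ε ≤ g x}, 0 < G z := by
    intro z hz
    obtain ⟨x, hx⟩ := mem_iUnion.1 (hcov hz)
    obtain ⟨hxt, hxz⟩ := mem_iUnion.1 hx
    rw [hGapp]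
    exact Finset.sum_pos' (fun x hx => hf0 x (ht x hx) z) ⟨x, hxt, hxz⟩
  -- lower bound of `G` on the compact set
  obtain ⟨δ, hδ, hδG⟩ : ∃ δ > 0, ∀ z ∈ {x | ε ≤ g x}, δ ≤ G z := by
    rcases Set.eq_empty_or_nonempty {x | ε ≤ g x} with he | hne
    · exact ⟨1, one_pos, by simp [he]⟩
    · obtain ⟨z0, hz0, hmin⟩ := hcomp.exists_isMinOn hne G.continuous.continuousOn
      exact ⟨G z0, hGpos z0 hz0, fun z hz => hmin hz⟩
  have hle : ∀ z, 0 ≤ ((ε • (1 : C(K, ℝ)) + (‖g‖ / δ) • G) - g) z := by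
    intro z
    simp only [ContinuousMap.coe_sub, ContinuousMap.coe_add, ContinuousMap.coe_smul, Pi.sub_apply,
      Pi.add_apply, Pi.smul_apply, ContinuousMap.one_apply, smul_eq_mul, mul_one]
    by_cases hz : ε ≤ g z
    · have h1 := hδG z hz
      have h2 : g z ≤ ‖g‖ := (le_abs_self _).trans (g.norm_coe_le_norm z)
      have h3 : ‖g‖ ≤ ‖g‖ / δ * G z := by
        rw [div_mul_eq_mul_div, le_div_iff₀ hδ]
        exact mul_le_mul_of_nonneg_left h1 (norm_nonneg _)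
      linarith
    · have h3 : 0 ≤ ‖g‖ / δ * G z := mul_nonneg (div_nonneg (norm_nonneg _) hδ.le) (hG0 z)
      linarith
  have := hpos _ hle
  rw [map_sub, map_add, map_smul, map_smul, hGM, hone] at this
  simp only [smul_eq_mul, mul_one, mul_zero, add_zero] at this
  linarith

theorem supp_nonempty (M : C(K, ℝ) →L[ℝ] ℝ) (hpos : ∀ f : C(K, ℝ), (∀ x, 0 ≤ f x) → 0 ≤ M f)
    (hone : M 1 = 1) : (supp M).Nonempty := by
  by_contra hcon
  rw [Set.not_nonempty_iff_eq_empty] at hcon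
  have := eq_zero_of_vanish M hpos hone 1 (fun x => by simp) (by simp [hcon])
  rw [hone] at this
  exact one_ne_zero this

/-- If `M (f ∘ σ) = M f`, the support is mapped onto itself. -/
theorem image_supp (M : C(K, ℝ) →L[ℝ] ℝ) (hpos : ∀ f : C(K, ℝ), (∀ x, 0 ≤ f x) → 0 ≤ M f)
    (hone : M 1 = 1) (σ : C(K, K)) (hσ : ∀ f : C(K, ℝ), M (f.comp σ) = M f) :
    σ '' supp M = supp M := by
  apply subset_antisymm
  · rintro _ ⟨y, hy, rfl⟩ f hf hfy
    rw [← hσ f]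
    exact hy (f.comp σ) (fun x => hf _) hfy
  · intro z hz
    by_contra hcon
    have hcl : IsClosed (σ '' supp M) := ((isClosed_supp M).isCompact.image σ.continuous).isClosed
    obtain ⟨f, hf0, hf1, hf⟩ := exists_continuous_zero_one_of_isClosed hcl
      (isClosed_singleton (x := z)) (by simpa using hcon)
    have h1 : M (f.comp σ) = 0 := by
      apply eq_zero_of_vanish M hpos hone (f.comp σ) (fun x => (hf _).1)
      intro x hx
      exact hf0 ⟨x, hx, rfl⟩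
    rw [hσ] at h1
    have h2 := hz f (fun x => (hf x).1) (by rw [hf1 rfl]; exact one_pos)
    linarith

end Support

section Semigroup

variable {K : Type*} [TopologicalSpace K]

theorem closure_comp {G : Set (K → K)} (hG : ∀ g ∈ G, ∀ h ∈ G, g ∘ h ∈ G)
    (hc : ∀ g ∈ G, Continuous g) : ∀ g ∈ closure G, ∀ h ∈ closure G, g ∘ h ∈ closure G := by
  have step1 : ∀ g ∈ G, ∀ h ∈ closure G, g ∘ h ∈ closure G := by
    intro g hg h hh
    have hcont : Continuous fun h : K → K => g ∘ h :=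
      continuous_pi fun x => (hc g hg).comp (continuous_apply x)
    exact map_mem_closure hcont hh fun h' hh' => hG g hg h' hh'
  intro g hg h hh
  have hcont : Continuous fun g : K → K => g ∘ h :=
    continuous_pi fun x => continuous_apply (h x)
  have := map_mem_closure hcont hg (t := closure G) fun g' hg' => step1 g' hg' h hh
  simpa using this

/-- Left inverses inside a compact subsemigroup all of whose elements map `F` onto `F`. -/
theorem exists_left_inverse [T2Space K] {Γ : Set (K → K)} (hΓc : IsCompact Γ)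
    (hΓ : ∀ g ∈ Γ, ∀ h ∈ Γ, g ∘ h ∈ Γ) {F : Set K} (hF : ∀ g ∈ Γ, g '' F = F)
    {σ : K → K} (hσ : σ ∈ Γ) : ∃ τ ∈ Γ, ∀ y ∈ F, τ (σ y) = y := by
  letI : Semigroup (K → K) := { mul := fun f g => f ∘ g, mul_assoc := fun _ _ _ => rfl }
  have hcont : ∀ r : K → K, Continuous fun g : K → K => g ∘ r := fun r =>
    continuous_pi fun x => continuous_apply (r x)
  obtain ⟨e, ⟨τ, hτ, rfl⟩, he⟩ := exists_idempotent_in_compact_subsemigroup
    (M := K → K) hcont ((fun g => g ∘ σ) '' Γ) ⟨_, ⟨σ, hσ, rfl⟩⟩ (hΓc.image (hcont σ)) (by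
      rintro _ ⟨g, hg, rfl⟩ _ ⟨h, hh, rfl⟩
      exact ⟨g ∘ σ ∘ h, hΓ g hg _ (hΓ σ hσ h hh), rfl⟩)
  refine ⟨τ, hτ, fun y hy => ?_⟩
  have heΓ : (τ ∘ σ) ∈ Γ := hΓ τ hτ σ hσ
  have himg := hF _ heΓ
  rw [← himg] at hy
  obtain ⟨z, hz, rfl⟩ := hy
  exact congrFun he z

end Semigroup

section TotallyBounded

variable {K : Type*} [TopologicalSpace K] [CompactSpace K] [T2Space K]

/-- Finite products of the maps `σ n`. -/
def prodMap (σ : ℕ → K → K) (q : ℕ × List ℕ) : K → K :=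
  σ q.1 ∘ q.2.foldr (fun m h => σ m ∘ h) id

omit [TopologicalSpace K] [CompactSpace K] [T2Space K] in
theorem prodMap_comp (σ : ℕ → K → K) (q q' : ℕ × List ℕ) :
    prodMap σ q ∘ prodMap σ q' = prodMap σ (q.1, q.2 ++ q'.1 :: q'.2) := by
  have h : ∀ (l : List ℕ) (f : K → K),
      l.foldr (fun m h => σ m ∘ h) id ∘ f = l.foldr (fun m h => σ m ∘ h) f := by
    intro l f
    induction l with
    | nil => rfl
    | cons a l ih => simp only [List.foldr_cons, Function.comp_assoc, ih]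
  simp only [prodMap, Function.comp_assoc, h, List.foldr_append, List.foldr_cons]

theorem totallyBounded_orbit {Γ : Set (K → K)} (hΓcl : IsClosed Γ)
    (hΓcont : ∀ g ∈ Γ, Continuous g)
    (hΓ : ∀ g ∈ Γ, ∀ h ∈ Γ, g ∘ h ∈ Γ) {F : Set K} (hF : ∀ g ∈ Γ, g '' F = F)
    (d : K → K → ℝ)
    (hne : ∀ g ∈ Γ, ∀ x y, d (g x) (g y) ≤ d x y)
    (hsep : ∀ D : Set K, D.Countable → ∀ ε > 0, ∃ A : ℕ → Set K, (∀ n, IsClosed (A n)) ∧
      (∀ n, ∀ x ∈ A n, ∀ y ∈ A n, d x y ≤ ε) ∧ closure D ⊆ ⋃ n, A n)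
    {y : K} (hy : y ∈ F) (ε : ℝ) (hε : 0 < ε) :
    ∃ t : Finset K, (∀ w ∈ t, ∃ g ∈ Γ, g y = w) ∧ ∀ g ∈ Γ, ∃ w ∈ t, d w (g y) < ε := by
  by_contra hcon
  push Not at hcon
  obtain ⟨z, hz1, hz2⟩ := exists_seq_of_forall_finset_exists (fun w : K => ∃ g ∈ Γ, g y = w)
    (fun w z => ε ≤ d w z) (by
      intro t ht
      obtain ⟨g, hg, hgt⟩ := hcon t ht
      exact ⟨g y, ⟨g, hg, rfl⟩, hgt⟩)
  choose σ hσΓ hσy using hz1
  -- the countable semigroup
  have hGΓ : range (prodMap σ) ⊆ Γ := by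
    rintro _ ⟨⟨n, l⟩, rfl⟩
    induction l generalizing n with
    | nil => exact hσΓ n
    | cons a l ih =>
      have h1 : prodMap σ (n, a :: l) = σ n ∘ prodMap σ (a, l) := rfl
      rw [h1]
      exact hΓ _ (hσΓ n) _ (ih a)
  set Γ₁ : Set (K → K) := closure (range (prodMap σ)) with hΓ₁
  have hΓ₁Γ : Γ₁ ⊆ Γ := closure_minimal hGΓ hΓcl
  have hΓ₁comp : ∀ g ∈ Γ₁, ∀ h ∈ Γ₁, g ∘ h ∈ Γ₁ := by
    apply closure_comp
    · rintro _ ⟨q, rfl⟩ _ ⟨q', rfl⟩
      exact ⟨_, (prodMap_comp σ q q').symm⟩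
    · exact fun g hg => hΓcont g (hGΓ hg)
  have hΓ₁c : IsCompact Γ₁ := isClosed_closure.isCompact
  have hinv : ∀ σ ∈ Γ₁, ∃ τ ∈ Γ₁, ∀ y ∈ F, τ (σ y) = y := fun σ hσ =>
    exists_left_inverse hΓ₁c hΓ₁comp (fun g hg => hF g (hΓ₁Γ hg)) hσ
  -- the orbit
  set F₁ : Set K := (fun g : K → K => g y) '' Γ₁ with hF₁
  have hevc : Continuous fun g : K → K => g y := continuous_apply y
  have hF₁c : IsCompact F₁ := hΓ₁c.image hevc
  have hF₁F : F₁ ⊆ F := by
    rintro _ ⟨g, hg, rfl⟩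
    rw [← hF g (hΓ₁Γ hg)]
    exact ⟨y, hy, rfl⟩
  obtain ⟨A, hA1, hA2, hA3⟩ := hsep ((fun g : K → K => g y) '' range (prodMap σ))
    ((countable_range _).image _) (ε / 2) (half_pos hε)
  have hF₁A : F₁ ⊆ ⋃ n, A n := (image_closure_subset_closure_image hevc).trans hA3
  have hσΓ₁ : ∀ n, σ n ∈ Γ₁ := fun n => subset_closure ⟨(n, []), rfl⟩
  -- Baire
  haveI : CompactSpace F₁ := isCompact_iff_compactSpace.1 hF₁c
  haveI : Nonempty F₁ := ⟨⟨σ 0 y, σ 0, hσΓ₁ 0, rfl⟩⟩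
  obtain ⟨n, hn⟩ := nonempty_interior_of_iUnion_of_closed (X := F₁)
    (f := fun n => Subtype.val ⁻¹' A n) (fun n => (hA1 n).preimage continuous_subtype_val) (by
      ext x
      simp only [mem_iUnion, mem_preimage, mem_univ, iff_true]
      exact mem_iUnion.1 (hF₁A x.2))
  obtain ⟨⟨u, hu⟩, huint⟩ := hn
  obtain ⟨V, hVA, hVo, huV⟩ := mem_interior.1 huint
  obtain ⟨U, hU, rfl⟩ := isOpen_induced_iff.1 hVo
  obtain ⟨ρ', hρ', hρ'y⟩ := hu
  -- covering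
  have hcov : ∀ z ∈ F₁, ∃ g ∈ Γ₁, g z ∈ U := by
    rintro _ ⟨ρ, hρ, rfl⟩
    obtain ⟨τ, hτ, hτ'⟩ := hinv ρ hρ
    refine ⟨ρ' ∘ τ, hΓ₁comp _ hρ' _ hτ, ?_⟩
    simp only [Function.comp_apply, hτ' y hy]
    simp only at hρ'y
    rw [hρ'y]
    exact huV
  obtain ⟨t, htsub, htcov⟩ := hF₁c.elim_finite_subcover_image (b := Γ₁)
    (c := fun g : K → K => g ⁻¹' U) (fun g hg => hU.preimage (hΓcont g (hΓ₁Γ hg))) (by
      intro z hz
      obtain ⟨g, hg, hgz⟩ := hcov z hz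
      exact mem_iUnion₂.2 ⟨g, hg, hgz⟩)
  obtain ⟨htfin, htcov⟩ := htcov
  have hsel : ∀ n, ∃ g ∈ t, g (z n) ∈ U := by
    intro n
    have : z n ∈ F₁ := ⟨σ n, hσΓ₁ n, hσy n⟩
    obtain ⟨g, hg, h⟩ := mem_iUnion₂.1 (htcov this)
    exact ⟨g, hg, h⟩
  choose g hgt hgU using hsel
  haveI : Finite t := htfin.to_subtype
  obtain ⟨m, k, hmk, hgmk⟩ := Finite.exists_ne_map_eq_of_infinite (fun n => (⟨g n, hgt n⟩ : t))
  have hgmk' : g m = g k := congrArg Subtype.val hgmk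
  wlog hlt : m < k generalizing m k
  · exact this k m hmk.symm hgmk.symm hgmk'.symm (lt_of_le_of_ne (not_lt.1 hlt) hmk.symm)
  have hzF₁ : ∀ n, z n ∈ F₁ := fun n => ⟨σ n, hσΓ₁ n, hσy n⟩
  have hgΓ₁ : g m ∈ Γ₁ := htsub (hgt m)
  have hmemA : ∀ w ∈ F₁, g m w ∈ U → g m w ∈ A n := by
    intro w hw hgw
    have hgwF : g m w ∈ F₁ := by
      obtain ⟨ρ, hρ, rfl⟩ := hw
      exact ⟨g m ∘ ρ, hΓ₁comp _ hgΓ₁ _ hρ, rfl⟩
    exact hVA (show (⟨g m w, hgwF⟩ : F₁) ∈ Subtype.val ⁻¹' U from hgw)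
  have h1 : d (g m (z m)) (g m (z k)) ≤ ε / 2 :=
    hA2 n _ (hmemA _ (hzF₁ m) (hgU m)) _ (hmemA _ (hzF₁ k) (by rw [hgmk']; exact hgU k))
  obtain ⟨τ, hτ, hτ'⟩ := hinv (g m) hgΓ₁
  have h2 : d (z m) (z k) ≤ d (g m (z m)) (g m (z k)) := by
    have := hne τ (hΓ₁Γ hτ) (g m (z m)) (g m (z k))
    rwa [hτ' _ (hF₁F (hzF₁ m)), hτ' _ (hF₁F (hzF₁ k))] at this
  have h3 := hz2 m k hlt
  linarith

end TotallyBounded

end Run7.h384.WAP
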