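import Mathlib

/-!
# Weakly almost periodic functions on a semitopological semigroup, left invariant means,
nonexpansive representations
-/

open Topology Set
open scoped BoundedContinuousFunction Pointwise

namespace Run7.h384.WAP

/-- A semitopological semigroup: a semigroup with a Hausdorff topology in which all left and right
translations are continuous. -/
class SemitopologicalSemigroup (S : Type*) [Semigroup S] [TopologicalSpace S] : Prop where
  t2 : T2Space S
  continuous_left : ∀ t : S, Continuous fun s : S => t * s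
  continuous_right : ∀ t : S, Continuous fun s : S => s * t

section WAP

variable {𝕂 : Type*} [RCLike 𝕂] {S : Type*} [Semigroup S] [TopologicalSpace S]
  [SemitopologicalSemigroup S]

/-- The left translate `ℓ_a f (t) = f (a t)` of a bounded continuous function. -/
def leftTranslate (a : S) (f : S →ᵇ 𝕂) : S →ᵇ 𝕂 :=
  f.compContinuous ⟨fun t => a * t, SemitopologicalSemigroup.continuous_left a⟩

/-- `f ∈ WAP(S)`: the left orbit `{ℓ_a f : a ∈ S}` of the bounded continuous function `f` is
relatively compact in `C_b(S)` with its weak topology. -/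
structure IsWAP (f : S →ᵇ 𝕂) : Prop where
  isCompact_closure : IsCompact
    (closure (toWeakSpace 𝕂 (S →ᵇ 𝕂) '' range fun a : S => leftTranslate a f))

/-- `m` is a left invariant mean on `WAP(S)`: it is linear on `WAP(S)`, `m ≥ 0`, `m 1 = 1` and
`m (ℓ_a f) = m f`.  The values of `m` outside `WAP(S)` play no role. -/
structure IsLeftInvariantMean (m : (S →ᵇ 𝕂) → 𝕂) : Prop where
  map_add : ∀ f g, IsWAP f → IsWAP g → m (f + g) = m f + m g
  map_smul : ∀ (c : 𝕂) (f), IsWAP f → m (c • f) = c * m f
  nonneg : ∀ f, IsWAP f → (∀ s : S, ∃ r : ℝ, 0 ≤ r ∧ f s = (r : 𝕂)) →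
    ∃ r : ℝ, 0 ≤ r ∧ m f = (r : 𝕂)
  map_one : m 1 = 1
  invariant : ∀ (a : S) (f), IsWAP f → m (leftTranslate a f) = m f

/-! `WAP(S)` is a translation invariant linear space containing the constants (for the reader;
not needed to state the theorem). -/

theorem IsWAP.add {f g : S →ᵇ 𝕂} (hf : IsWAP f) (hg : IsWAP g) : IsWAP (f + g) := by
  have h := hf.isCompact_closure.add hg.isCompact_closure
  refine ⟨h.closure_of_subset ?_⟩
  rintro _ ⟨_, ⟨a, rfl⟩, rfl⟩
  refine ⟨_, subset_closure ⟨_, ⟨a, rfl⟩, rfl⟩, _, subset_closure ⟨_, ⟨a, rfl⟩, rfl⟩, ?_⟩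
  exact (_root_.map_add (toWeakSpace 𝕂 (S →ᵇ 𝕂)) _ _).symm

theorem IsWAP.smul (c : 𝕂) {f : S →ᵇ 𝕂} (hf : IsWAP f) : IsWAP (c • f) := by
  have h := hf.isCompact_closure.image (continuous_const_smul c)
  refine ⟨h.closure_of_subset ?_⟩
  rintro _ ⟨_, ⟨a, rfl⟩, rfl⟩
  refine ⟨_, subset_closure ⟨_, ⟨a, rfl⟩, rfl⟩, ?_⟩
  exact (_root_.map_smul (toWeakSpace 𝕂 (S →ᵇ 𝕂)) c _).symm

theorem isWAP_one : IsWAP (1 : S →ᵇ 𝕂) := by
  refine ⟨(isCompact_singleton (x := toWeakSpace 𝕂 (S →ᵇ 𝕂) 1)).closure_of_subset ?_⟩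
  rintro _ ⟨_, ⟨a, rfl⟩, rfl⟩
  rfl

theorem IsWAP.translate (a : S) {f : S →ᵇ 𝕂} (hf : IsWAP f) : IsWAP (leftTranslate a f) := by
  refine ⟨hf.isCompact_closure.closure_of_subset ?_⟩
  rintro _ ⟨_, ⟨b, rfl⟩, rfl⟩
  refine subset_closure ⟨_, ⟨a * b, rfl⟩, ?_⟩
  congr 1
  ext t
  change f (a * b * t) = f (a * (b * t))
  rw [mul_assoc]

end WAP

section Representations

variable {𝕜 E ι : Type*} [RCLike 𝕜] [AddCommGroup E] [Module 𝕜 E] [TopologicalSpace E]
  [IsTopologicalAddGroup E]
variable {S : Type*} [Semigroup S] [TopologicalSpace S]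

/-- `T` is a representation of `S` on the set `C` of the locally convex space `(E, Q)` which is
weakly separately continuous, weakly quasi-equicontinuous and `Q`-nonexpansive.
Here `C` is a subset of `WeakSpace 𝕜 E`, that is of `E` with the weak topology `σ(E, E*)`, so that
every topological notion on `C` refers to the weak topology. -/
structure IsNonexpansiveRep (Q : SeminormFamily 𝕜 E ι) (C : Set (WeakSpace 𝕜 E))
    (T : S → C → C) : Prop where
  /-- `T` is a representation. -/
  map_mul : ∀ s t x, T (s * t) x = T s (T t x)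
  /-- weak separate continuity in the point of `C` -/
  continuous_point : ∀ s, Continuous (T s)
  /-- weak separate continuity in the element of `S` -/
  continuous_semigroup : ∀ x, Continuous fun s => T s x
  /-- weak quasi-equicontinuity -/
  quasi : ∀ g ∈ closure (range T), Continuous g
  /-- `Q`-nonexpansiveness -/
  nonexpansive : ∀ (i : ι) (s : S) (x y : C),
    Q i ((toWeakSpace 𝕜 E).symm (T s x) - (toWeakSpace 𝕜 E).symm (T s y)) ≤
      Q i ((toWeakSpace 𝕜 E).symm x - (toWeakSpace 𝕜 E).symm y)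

end Representations

/-- Property (F) of a semitopological semigroup `S`: every weakly separately continuous, weakly
quasi-equicontinuous, `Q`-nonexpansive representation of `S` on a nonempty weakly compact convex
subset `C` of a (real or complex) Hausdorff locally convex space `(E, Q)` has a common fixed
point. -/
structure PropertyF.{u, v, w} (S : Type u) [Semigroup S] [TopologicalSpace S] : Prop where
  exists_fixedPoint : ∀ (𝕜 : Type) [RCLike 𝕜] (E : Type v) [AddCommGroup E] [Module 𝕜 E]
    [Module ℝ E] [IsScalarTower ℝ 𝕜 E] [TopologicalSpace E] [IsTopologicalAddGroup E]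
    [ContinuousSMul 𝕜 E] [T2Space E] (ι : Type w) (Q : SeminormFamily 𝕜 E ι), WithSeminorms Q →
    ∀ C : Set (WeakSpace 𝕜 E), C.Nonempty → IsCompact C → Convex ℝ C →
    ∀ T : S → C → C, IsNonexpansiveRep Q C T → ∃ x : C, ∀ s : S, T s x = x

end Run7.h384.WAP
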