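import Mathlib
import Pool.Agent.Run7.h384.WAPC
import Pool.Agent.Run7.h384.WAPDefs

/-!
# The invariant positive functional, and the set `F`
-/

open Topology Filter Set
open scoped BoundedContinuousFunction

namespace Run7.h384.WAP

section Functional

variable {𝕂 : Type*} [RCLike 𝕂] {S : Type*} [Semigroup S] [TopologicalSpace S]
variable {K : Type*} [TopologicalSpace K] [CompactSpace K]

/-- `J f (s) = f (T_s x)`. -/
noncomputable def J (𝕂 : Type*) [RCLike 𝕂] (T : S → K → K) (x : K)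
    (hx : Continuous fun s => T s x) :
    C(K, ℝ) →ₗ[ℝ] (S →ᵇ 𝕂) where
  toFun f := BoundedContinuousFunction.ofNormedAddCommGroup (fun s => ((f (T s x) : ℝ) : 𝕂))
    (RCLike.continuous_ofReal.comp (f.continuous.comp hx)) ‖f‖ (fun s => by
      rw [RCLike.norm_ofReal]
      exact f.norm_coe_le_norm _)
  map_add' f g := by
    ext s
    simp
  map_smul' c f := by
    ext s
    simp [RCLike.real_smul_eq_coe_mul]

theorem J_apply (T : S → K → K) (x : K) (hx : Continuous fun s => T s x) (f : C(K, ℝ)) (s : S) :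
    J 𝕂 T x hx f s = ((f (T s x) : ℝ) : 𝕂) := rfl

theorem norm_J_le (T : S → K → K) (x : K) (hx : Continuous fun s => T s x) (f : C(K, ℝ)) :
    ‖J 𝕂 T x hx f‖ ≤ 1 * ‖f‖ := by
  rw [one_mul, BoundedContinuousFunction.norm_le (norm_nonneg _)]
  intro s
  rw [J_apply, RCLike.norm_ofReal]
  exact f.norm_coe_le_norm _

/-- Real part of a continuous functional composed with `J`. -/
noncomputable def reJ (T : S → K → K) (x : K) (hx : Continuous fun s => T s x)
    (φ : StrongDual 𝕂 (S →ᵇ 𝕂)) (ψ : 𝕂 →L[ℝ] ℝ) : C(K, ℝ) →L[ℝ] ℝ :=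
  LinearMap.mkContinuous
    { toFun := fun f => ψ (φ (J 𝕂 T x hx f))
      map_add' := fun f g => by simp only [map_add]
      map_smul' := fun c f => by
        have h1 : J 𝕂 T x hx (c • f) = (c : 𝕂) • J 𝕂 T x hx f := by
          ext s
          simp [J_apply]
        rw [h1, map_smul, smul_eq_mul, ← RCLike.real_smul_eq_coe_mul, map_smul]
        rfl } (‖ψ‖ * ‖φ‖) (fun f => by
      change ‖ψ (φ (J 𝕂 T x hx f))‖ ≤ _
      calc ‖ψ (φ (J 𝕂 T x hx f))‖ ≤ ‖ψ‖ * ‖φ (J 𝕂 T x hx f)‖ := ψ.le_opNorm _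
        _ ≤ ‖ψ‖ * (‖φ‖ * ‖J 𝕂 T x hx f‖) := by gcongr; exact φ.le_opNorm _
        _ ≤ ‖ψ‖ * (‖φ‖ * (1 * ‖f‖)) := by gcongr; exact norm_J_le T x hx f
        _ = ‖ψ‖ * ‖φ‖ * ‖f‖ := by ring)

variable [T2Space K]

/-- `σ ↦ J (f ∘ σ)` is weakly continuous on the closure of the semigroup. -/
theorem continuous_weak_J (T : S → K → K) (x : K) (hx : Continuous fun s => T s x)
    {Γ : Set (K → K)} (hΓ : IsCompact Γ) (hΓc : ∀ g ∈ Γ, Continuous g) (f : C(K, ℝ)) :
    Continuous fun g : Γ => toWeakSpace 𝕂 (S →ᵇ 𝕂)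
      (J 𝕂 T x hx (f.comp ⟨g.1, hΓc g.1 g.2⟩)) := by
  haveI : CompactSpace Γ := isCompact_iff_compactSpace.1 hΓ
  have hF : ∀ y : K, Continuous fun g : Γ => (f.comp ⟨g.1, hΓc g.1 g.2⟩ : C(K, ℝ)) y := fun y =>
    f.continuous.comp ((continuous_apply y).comp continuous_subtype_val)
  have hbd : ∀ (g : Γ) (y : K), |(f.comp ⟨g.1, hΓc g.1 g.2⟩ : C(K, ℝ)) y| ≤ ‖f‖ := fun g y =>
    f.norm_coe_le_norm _
  apply WeakBilin.continuous_of_continuous_eval
  intro φ
  change Continuous fun g : Γ => φ (J 𝕂 T x hx (f.comp ⟨g.1, hΓc g.1 g.2⟩))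
  have h1 : Continuous fun g : Γ => reJ T x hx φ RCLike.reCLM (f.comp ⟨g.1, hΓc g.1 g.2⟩) :=
    continuous_functional _ (fun g : Γ => (f.comp ⟨g.1, hΓc g.1 g.2⟩ : C(K, ℝ))) ‖f‖ hbd hF
  have h2 : Continuous fun g : Γ => reJ T x hx φ RCLike.imCLM (f.comp ⟨g.1, hΓc g.1 g.2⟩) :=
    continuous_functional _ (fun g : Γ => (f.comp ⟨g.1, hΓc g.1 g.2⟩ : C(K, ℝ))) ‖f‖ hbd hF
  have h3 := (RCLike.continuous_ofReal (K := 𝕂).comp h1).add
    ((RCLike.continuous_ofReal (K := 𝕂).comp h2).mul (continuous_const (y := (RCLike.I : 𝕂))))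
  refine h3.congr fun g => ?_
  exact RCLike.re_add_im _

end Functional

section Main

variable {𝕂 : Type*} [RCLike 𝕂] {S : Type*} [Semigroup S] [TopologicalSpace S]
  [SemitopologicalSemigroup S]
variable {K : Type*} [TopologicalSpace K] [CompactSpace K] [T2Space K]

theorem J_mem_WAP (T : S → K → K) (hT : ∀ s t x, T (s * t) x = T s (T t x))
    (hΓ : ∀ g ∈ closure (range T), Continuous g)
    (x : K) (hx : Continuous fun s => T s x) (f : C(K, ℝ)) : IsWAP (J 𝕂 T x hx f) := by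
  have hcomp : IsCompact (closure (range T)) := isClosed_closure.isCompact
  haveI : CompactSpace (closure (range T)) := isCompact_iff_compactSpace.1 hcomp
  have hcont := continuous_weak_J (𝕂 := 𝕂) T x hx hcomp hΓ f
  refine ⟨(isCompact_range hcont).closure_of_subset ?_⟩
  rintro _ ⟨_, ⟨a, rfl⟩, rfl⟩
  refine ⟨⟨T a, subset_closure ⟨a, rfl⟩⟩, ?_⟩
  refine congrArg (toWeakSpace 𝕂 (S →ᵇ 𝕂)) ?_
  ext t
  change ((f (T a (T t x)) : ℝ) : 𝕂) = ((f (T (a * t) x) : ℝ) : 𝕂)
  rw [hT]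

/-- The invariant positive functional. -/
theorem exists_functional {m : (S →ᵇ 𝕂) → 𝕂} (hm : IsLeftInvariantMean m) (T : S → K → K)
    (hT : ∀ s t x, T (s * t) x = T s (T t x))
    (hΓ : ∀ g ∈ closure (range T), Continuous g)
    (x : K) (hx : Continuous fun s => T s x) :
    ∃ M : C(K, ℝ) →L[ℝ] ℝ, (∀ f : C(K, ℝ), (∀ x, 0 ≤ f x) → 0 ≤ M f) ∧ M 1 = 1 ∧
      (∀ f : C(K, ℝ), (∀ s, f (T s x) = 0) → M f = 0) ∧
      ∀ (g : K → K) (hg : g ∈ closure (range T)) (f : C(K, ℝ)),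
        M (f.comp ⟨g, hΓ g hg⟩) = M f := by
  have hJ : ∀ f : C(K, ℝ), IsWAP (J 𝕂 T x hx f) := J_mem_WAP T hT hΓ x hx
  let M₀ : C(K, ℝ) →ₗ[ℝ] ℝ :=
    { toFun := fun f => RCLike.re (m (J 𝕂 T x hx f))
      map_add' := fun f g => by
        rw [← map_add, ← hm.map_add _ _ (hJ f) (hJ g)]
        congr 2
        exact map_add (J 𝕂 T x hx) f g
      map_smul' := fun c f => by
        have h1 : J 𝕂 T x hx (c • f) = (c : 𝕂) • J 𝕂 T x hx f := by
          ext s
          simp [J_apply]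
        rw [h1, hm.map_smul _ _ (hJ f), RCLike.re_ofReal_mul]
        rfl }
  have hpos : ∀ f : C(K, ℝ), (∀ x, 0 ≤ f x) → 0 ≤ M₀ f := by
    intro f hf
    obtain ⟨r, hr, hr'⟩ := hm.nonneg (J 𝕂 T x hx f) (hJ f) (fun s => ⟨f (T s x), hf _, rfl⟩)
    change 0 ≤ RCLike.re (m (J 𝕂 T x hx f))
    rw [hr', RCLike.ofReal_re]
    exact hr
  have hone : M₀ 1 = 1 := by
    change RCLike.re (m (J 𝕂 T x hx 1)) = 1
    have : J 𝕂 T x hx 1 = 1 := by
      ext s
      simp [J_apply]
    rw [this, hm.map_one, RCLike.one_re]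
  have hbound : ∀ f : C(K, ℝ), ‖M₀ f‖ ≤ 1 * ‖f‖ := by
    intro f
    rw [one_mul, Real.norm_eq_abs, abs_le]
    have h1 : 0 ≤ M₀ (‖f‖ • (1 : C(K, ℝ)) + f) := by
      apply hpos
      intro z
      have := (abs_le.1 (f.norm_coe_le_norm z)).1
      simp only [ContinuousMap.add_apply, ContinuousMap.smul_apply, ContinuousMap.one_apply,
        smul_eq_mul, mul_one]
      linarith
    have h2 : 0 ≤ M₀ (‖f‖ • (1 : C(K, ℝ)) - f) := by
      apply hpos
      intro z
      have := (abs_le.1 (f.norm_coe_le_norm z)).2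
      simp only [ContinuousMap.sub_apply, ContinuousMap.smul_apply, ContinuousMap.one_apply,
        smul_eq_mul, mul_one]
      linarith
    rw [map_add, map_smul, hone] at h1
    rw [map_sub, map_smul, hone] at h2
    simp only [smul_eq_mul, mul_one] at h1 h2
    constructor <;> linarith
  refine ⟨M₀.mkContinuous 1 hbound, hpos, hone, ?_, ?_⟩
  · intro f hf
    change RCLike.re (m (J 𝕂 T x hx f)) = 0
    have : J 𝕂 T x hx f = (0 : 𝕂) • J 𝕂 T x hx f := by
      ext s
      simp [J_apply, hf]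
    rw [this, hm.map_smul _ _ (hJ f), zero_mul, map_zero]
  · intro g hg f
    have hcomp : IsCompact (closure (range T)) := isClosed_closure.isCompact
    haveI : CompactSpace (closure (range T)) := isCompact_iff_compactSpace.1 hcomp
    set M := M₀.mkContinuous 1 hbound with hM
    have hcont : Continuous fun g : closure (range T) => M (f.comp ⟨g.1, hΓ g.1 g.2⟩) :=
      continuous_functional M (fun g : closure (range T) => (f.comp ⟨g.1, hΓ g.1 g.2⟩ : C(K, ℝ)))
        ‖f‖ (fun g y => f.norm_coe_le_norm _)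
        (fun y => f.continuous.comp ((continuous_apply y).comp continuous_subtype_val))
    have hbase : ∀ g : closure (range T), g ∈ (Subtype.val ⁻¹' range T : Set (closure (range T))) →
        M (f.comp ⟨g.1, hΓ g.1 g.2⟩) = M f := by
      rintro ⟨_, h⟩ ⟨a, rfl⟩
      change RCLike.re (m (J 𝕂 T x hx (f.comp ⟨T a, hΓ (T a) h⟩))) =
        RCLike.re (m (J 𝕂 T x hx f))
      rw [← hm.invariant a _ (hJ f)]
      congr 2
      ext t
      change ((f (T a (T t x)) : ℝ) : 𝕂) = ((f (T (a * t) x) : ℝ) : 𝕂)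
      rw [hT]
    have hcl : (⟨g, hg⟩ : closure (range T)) ∈
        closure (Subtype.val ⁻¹' range T : Set (closure (range T))) := by
      rw [closure_subtype, Subtype.image_preimage_coe, inter_eq_right.2 subset_closure]
      exact hg
    have hclosed : IsClosed {g : closure (range T) | M (f.comp ⟨g.1, hΓ g.1 g.2⟩) = M f} :=
      isClosed_eq hcont continuous_const
    exact closure_minimal hbase hclosed hcl

/-- The set `F`. -/
theorem exists_F {m : (S →ᵇ 𝕂) → 𝕂} (hm : IsLeftInvariantMean m) (T : S → K → K)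
    (hT : ∀ s t x, T (s * t) x = T s (T t x))
    (hΓ : ∀ g ∈ closure (range T), Continuous g)
    (x : K) (hx : Continuous fun s => T s x) {D : Set K} (hD : IsClosed D)
    (hxD : ∀ s, T s x ∈ D) :
    ∃ F : Set K, F.Nonempty ∧ F ⊆ D ∧ ∀ g ∈ closure (range T), g '' F = F := by
  obtain ⟨M, hpos, hone, hvan, hinv⟩ := exists_functional hm T hT hΓ x hx
  refine ⟨supp M, supp_nonempty M hpos hone, ?_, ?_⟩
  · intro y hy
    by_contra hyD
    obtain ⟨f, hf0, hf1, hf⟩ := exists_continuous_zero_one_of_isClosed hD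
      (isClosed_singleton (x := y)) (by simpa using hyD)
    have h1 := hy f (fun z => (hf z).1) (by rw [hf1 rfl]; exact one_pos)
    rw [hvan f fun s => hf0 (hxD s)] at h1
    exact lt_irrefl _ h1
  · intro g hg
    exact image_supp M hpos hone ⟨g, hΓ g hg⟩ (hinv g hg)

end Main

end Run7.h384.WAP
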