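import Mathlib
import Pool.Agent.Run7.h384.WAPD

/-!
# Common fixed points: the locally convex part
-/

open Topology Filter Set
open scoped BoundedContinuousFunction

namespace Run7.h384.WAP

section LC

variable {𝕜 E ι : Type*} [RCLike 𝕜] [AddCommGroup E] [Module 𝕜 E] [Module ℝ E]
  [IsScalarTower ℝ 𝕜 E] [TopologicalSpace E] [IsTopologicalAddGroup E] [ContinuousSMul 𝕜 E]

/-- the seminorm, on the space with the weak topology -/
noncomputable def wq (Q : SeminormFamily 𝕜 E ι) (i : ι) (z : WeakSpace 𝕜 E) : ℝ :=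
  Q i ((toWeakSpace 𝕜 E).symm z)

theorem wq_def (Q : SeminormFamily 𝕜 E ι) (i : ι) (z : WeakSpace 𝕜 E) :
    wq Q i z = Q i ((toWeakSpace 𝕜 E).symm z) := rfl

theorem convex_ball (p : Seminorm 𝕜 E) (r : ℝ) : Convex ℝ {e : E | p e ≤ r} := by
  intro x hx y hy a b ha hb hab
  have h1 : ∀ (c : ℝ) (z : E), 0 ≤ c → p (c • z) = c * p z := by
    intro c z hc
    have : c • z = (c : 𝕜) • z := by
      rw [← smul_one_smul 𝕜 c z]
      congr 1
      rw [RCLike.real_smul_eq_coe_mul, mul_one]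
    rw [this, map_smul_eq_mul, RCLike.norm_ofReal, abs_of_nonneg hc]
  have hx' : p x ≤ r := hx
  have hy' : p y ≤ r := hy
  calc p (a • x + b • y) ≤ p (a • x) + p (b • y) := map_add_le_add p _ _
    _ = a * p x + b * p y := by rw [h1 a x ha, h1 b y hb]
    _ ≤ a * r + b * r := by gcongr
    _ = r := by rw [← add_mul, hab, one_mul]

variable [LocallyConvexSpace ℝ E]

theorem isClosed_wq_le {Q : SeminormFamily 𝕜 E ι} (hQ : ∀ i, Continuous (Q i)) (i : ι) (r : ℝ) :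
    IsClosed {z : WeakSpace 𝕜 E | wq Q i z ≤ r} := by
  have h1 : IsClosed {e : E | Q i e ≤ r} := isClosed_le (hQ i) continuous_const
  have h2 := (convex_ball (Q i) r).toWeakSpace_closure 𝕜
  rw [h1.closure_eq] at h2
  have h3 : {z : WeakSpace 𝕜 E | wq Q i z ≤ r} = toWeakSpace 𝕜 E '' {e : E | Q i e ≤ r} := by
    ext z
    constructor
    · intro hz
      exact ⟨(toWeakSpace 𝕜 E).symm z, hz, rfl⟩
    · rintro ⟨e, he, rfl⟩
      exact he
  rw [h3, h2]
  exact isClosed_closure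

theorem isClosed_wq_sub_le {Q : SeminormFamily 𝕜 E ι} (hQ : ∀ i, Continuous (Q i)) (i : ι) (r : ℝ)
    (w : WeakSpace 𝕜 E) : IsClosed {z : WeakSpace 𝕜 E | wq Q i (z - w) ≤ r} :=
  (isClosed_wq_le hQ i r).preimage (continuous_id.sub continuous_const)

/-- Weak closures of countable sets are separable for each seminorm. -/
theorem separable_closure {Q : SeminormFamily 𝕜 E ι} (hQ : ∀ i, Continuous (Q i)) (i : ι)
    (D : Set (WeakSpace 𝕜 E)) (hD : D.Countable) {ε : ℝ} (hε : 0 < ε) :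
    ∃ A : ℕ → Set (WeakSpace 𝕜 E), (∀ n, IsClosed (A n)) ∧
      (∀ n, ∀ x ∈ A n, ∀ y ∈ A n, wq Q i (x - y) ≤ ε) ∧ closure D ⊆ ⋃ n, A n := by
  haveI : ContinuousSMul ℝ E := IsScalarTower.continuousSMul 𝕜
  set D' : Set E := (toWeakSpace 𝕜 E).symm '' D with hD'
  have hsep : TopologicalSpace.IsSeparable (closure (Submodule.span ℝ D' : Set E)) :=
    (hD.image _).isSeparable.span.closure
  obtain ⟨N₀, hN₀c, hN₀⟩ := hsep
  obtain ⟨ν, hν⟩ : ∃ ν : ℕ → E, insert 0 N₀ = range ν :=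
    (hN₀c.insert 0).exists_eq_range (insert_nonempty _ _)
  refine ⟨fun n => {z | wq Q i (z - toWeakSpace 𝕜 E (ν n)) ≤ ε / 2}, fun n =>
    isClosed_wq_sub_le hQ i _ _, ?_, ?_⟩
  · intro n x hx y hy
    have hx' : wq Q i (x - toWeakSpace 𝕜 E (ν n)) ≤ ε / 2 := hx
    have hy' : wq Q i (y - toWeakSpace 𝕜 E (ν n)) ≤ ε / 2 := hy
    have h : wq Q i (x - y) ≤ wq Q i (x - toWeakSpace 𝕜 E (ν n)) +
        wq Q i (y - toWeakSpace 𝕜 E (ν n)) := by
      simp only [wq_def, map_sub]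
      have := map_sub_le_add (Q i)
        ((toWeakSpace 𝕜 E).symm x - (toWeakSpace 𝕜 E).symm (toWeakSpace 𝕜 E (ν n)))
        ((toWeakSpace 𝕜 E).symm y - (toWeakSpace 𝕜 E).symm (toWeakSpace 𝕜 E (ν n)))
      rwa [sub_sub_sub_cancel_right] at this
    linarith
  · intro z hz
    have h1 : D ⊆ toWeakSpace 𝕜 E '' (Submodule.span ℝ D' : Set E) := by
      intro w hw
      exact ⟨(toWeakSpace 𝕜 E).symm w, Submodule.subset_span ⟨w, hw, rfl⟩, rfl⟩
    have h2 := closure_mono h1 hz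
    rw [← (Submodule.span ℝ D').convex.toWeakSpace_closure 𝕜] at h2
    obtain ⟨e, he, rfl⟩ := h2
    have h3 := hN₀ he
    have h4 : {x | Q i (e - x) < ε / 2} ∈ 𝓝 e := by
      apply IsOpen.mem_nhds
      · exact isOpen_lt ((hQ i).comp (continuous_const.sub continuous_id)) continuous_const
      · simp only [mem_setOf_eq, sub_self, map_zero]
        exact half_pos hε
    obtain ⟨x, hx1, hx2⟩ := mem_closure_iff_nhds.1 h3 _ h4
    have hx3 : x ∈ insert (0 : E) N₀ := mem_insert_of_mem _ hx2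
    rw [hν] at hx3
    obtain ⟨n, rfl⟩ := hx3
    refine mem_iUnion.2 ⟨n, ?_⟩
    change wq Q i (toWeakSpace 𝕜 E e - toWeakSpace 𝕜 E (ν n)) ≤ ε / 2
    rw [wq_def, map_sub]
    exact le_of_lt hx1

end LC

section Main

variable {𝕂 : Type*} [RCLike 𝕂] {S : Type*} [Semigroup S] [TopologicalSpace S]
  [SemitopologicalSemigroup S]
variable {𝕜 E ι : Type*} [RCLike 𝕜] [AddCommGroup E] [Module 𝕜 E] [Module ℝ E]
  [IsScalarTower ℝ 𝕜 E] [TopologicalSpace E] [IsTopologicalAddGroup E] [ContinuousSMul 𝕜 E]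

theorem nonempty_of_LIM {m : (S →ᵇ 𝕂) → 𝕂} (hm : IsLeftInvariantMean m) : Nonempty S := by
  by_contra hne
  rw [not_nonempty_iff] at hne
  have h1 : (1 : S →ᵇ 𝕂) = (0 : 𝕂) • 1 := by
    ext s
    exact hne.elim s
  have h2 := hm.map_one
  rw [h1, hm.map_smul _ _ isWAP_one, zero_mul] at h2
  exact zero_ne_one h2

theorem wq_add_le (Q : SeminormFamily 𝕜 E ι) (i : ι) (x y : WeakSpace 𝕜 E) :
    wq Q i (x + y) ≤ wq Q i x + wq Q i y := by
  simp only [wq_def, map_add]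
  exact map_add_le_add (Q i) _ _

theorem wq_symm (Q : SeminormFamily 𝕜 E ι) (i : ι) (x y : WeakSpace 𝕜 E) :
    wq Q i (x - y) = wq Q i (y - x) := by
  simp only [wq_def, map_sub]
  exact map_sub_rev (Q i) _ _

theorem wq_tri (Q : SeminormFamily 𝕜 E ι) (i : ι) (x y z : WeakSpace 𝕜 E) :
    wq Q i (x - z) ≤ wq Q i (x - y) + wq Q i (y - z) := by
  have := wq_add_le Q i (x - y) (y - z)
  rwa [sub_add_sub_cancel] at this

theorem wq_nonneg (Q : SeminormFamily 𝕜 E ι) (i : ι) (x : WeakSpace 𝕜 E) : 0 ≤ wq Q i x :=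
  apply_nonneg _ _

theorem wq_smul (Q : SeminormFamily 𝕜 E ι) (i : ι) (c : ℝ) (hc : 0 ≤ c) (x : WeakSpace 𝕜 E) :
    wq Q i (c • x) = c * wq Q i x := by
  have h1 : (toWeakSpace 𝕜 E).symm (c • x) = (c : 𝕜) • (toWeakSpace 𝕜 E).symm x := by
    change c • ((toWeakSpace 𝕜 E).symm x) = (c : 𝕜) • (toWeakSpace 𝕜 E).symm x
    rw [← smul_one_smul 𝕜 c ((toWeakSpace 𝕜 E).symm x)]
    congr 1
    rw [RCLike.real_smul_eq_coe_mul, mul_one]
  rw [wq_def, h1, map_smul_eq_mul, RCLike.norm_ofReal, abs_of_nonneg hc]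
  rfl

theorem wq_sum_le (Q : SeminormFamily 𝕜 E ι) (i : ι) {α : Type*} (t : Finset α)
    (f : α → WeakSpace 𝕜 E) : wq Q i (∑ a ∈ t, f a) ≤ ∑ a ∈ t, wq Q i (f a) := by
  classical
  induction t using Finset.induction_on with
  | empty =>
    simp only [Finset.sum_empty, wq_def, map_zero]
    exact le_rfl
  | insert a t ha ih =>
    rw [Finset.sum_insert ha, Finset.sum_insert ha]
    exact (wq_add_le Q i _ _).trans (add_le_add le_rfl ih)

theorem exists_fixedPoint [T2Space E] {m : (S →ᵇ 𝕂) → 𝕂} (hm : IsLeftInvariantMean m)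
    (Q : SeminormFamily 𝕜 E ι) (hQ : WithSeminorms Q) (C : Set (WeakSpace 𝕜 E))
    (hCne : C.Nonempty) (hCc : IsCompact C) (hCconv : Convex ℝ C) (T : S → C → C)
    (hT : IsNonexpansiveRep Q C T) : ∃ x : C, ∀ s : S, T s x = x := by
  classical
  haveI : LocallyConvexSpace ℝ E := hQ.toLocallyConvexSpace
  haveI : ContinuousSMul ℝ E := IsScalarTower.continuousSMul 𝕜
  haveI : SeparatingDual 𝕜 E := ⟨fun x hx =>
    (RCLike.geometric_hahn_banach_point_point (𝕜 := 𝕜) hx).imp fun f hf hf' => by simp [hf'] at hf⟩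
  haveI : CompactSpace C := isCompact_iff_compactSpace.1 hCc
  haveI : Nonempty S := nonempty_of_LIM hm
  have hQc : ∀ i, Continuous (Q i) := hQ.continuous_seminorm
  -- Zorn
  set 𝒮 : Set (Set (WeakSpace 𝕜 E)) := {D | D ⊆ C ∧ D.Nonempty ∧ IsClosed D ∧ Convex ℝ D ∧
    ∀ (s : S) (x : C), (x : WeakSpace 𝕜 E) ∈ D → (T s x : WeakSpace 𝕜 E) ∈ D} with h𝒮
  have hC𝒮 : C ∈ 𝒮 := ⟨subset_rfl, hCne, hCc.isClosed, hCconv, fun s x _ => (T s x).2⟩
  obtain ⟨D, hDC, hDmin⟩ := zorn_superset_nonempty 𝒮 (by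
    intro c hc hchain hcne
    haveI : Nonempty c := hcne.to_subtype
    refine ⟨⋂₀ c, ⟨?_, ?_, ?_, ?_, ?_⟩, fun s hs => sInter_subset_of_mem hs⟩
    · obtain ⟨s, hs⟩ := hcne
      exact (sInter_subset_of_mem hs).trans (hc hs).1
    · apply IsCompact.nonempty_sInter_of_directed_nonempty_isCompact_isClosed
      · intro U hU V hV
        rcases hchain.total hU hV with h | h
        · exact ⟨U, hU, subset_rfl, h⟩
        · exact ⟨V, hV, h, subset_rfl⟩
      · exact fun U hU => (hc hU).2.1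
      · exact fun U hU => hCc.of_isClosed_subset (hc hU).2.2.1 (hc hU).1
      · exact fun U hU => (hc hU).2.2.1
    · exact isClosed_sInter fun U hU => (hc hU).2.2.1
    · exact convex_sInter fun U hU => (hc hU).2.2.2.1
    · intro s x hx U hU
      exact (hc hU).2.2.2.2 s x (hx U hU)) C hC𝒮
  obtain ⟨-, ⟨x₀, hx₀⟩, hDcl, hDconv, hDinv⟩ := hDmin.prop
  -- the semigroup closure
  set Γ : Set (C → C) := closure (range T) with hΓdef
  have hΓcl : IsClosed Γ := isClosed_closure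
  have hΓcomp : ∀ g ∈ Γ, ∀ h ∈ Γ, g ∘ h ∈ Γ := by
    apply closure_comp
    · rintro _ ⟨s, rfl⟩ _ ⟨t, rfl⟩
      exact ⟨s * t, funext fun x => hT.map_mul s t x⟩
    · rintro _ ⟨s, rfl⟩
      exact hT.continuous_point s
  have hTΓ : ∀ s, T s ∈ Γ := fun s => subset_closure ⟨s, rfl⟩
  -- the set `F`
  let x₁ : C := ⟨x₀, hDC hx₀⟩
  obtain ⟨F, ⟨y, hy⟩, hFD, hF⟩ := exists_F hm T hT.map_mul hT.quasi x₁
    (hT.continuous_semigroup x₁) (hDcl.preimage continuous_subtype_val)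
    (fun s => hDinv s x₁ hx₀)
  have hinv : ∀ σ ∈ Γ, ∃ τ ∈ Γ, ∀ y ∈ F, τ (σ y) = y := fun σ hσ =>
    exists_left_inverse hΓcl.isCompact hΓcomp hF hσ
  have hgyF : ∀ g ∈ Γ, g y ∈ F := fun g hg => by
    rw [← hF g hg]
    exact ⟨y, hy, rfl⟩
  have hgyD : ∀ g ∈ Γ, (g y : WeakSpace 𝕜 E) ∈ D := fun g hg => hFD (hgyF g hg)
  have hsurj : ∀ (s : S), ∀ g ∈ Γ, ∃ h ∈ Γ, T s (h y) = g y := by
    intro s g hg
    obtain ⟨τ, hτ, hτ'⟩ := hinv (T s) (hTΓ s)
    refine ⟨τ ∘ g, hΓcomp _ hτ _ hg, ?_⟩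
    have h1 := hgyF g hg
    rw [← hF _ (hTΓ s)] at h1
    obtain ⟨z, hz, hz'⟩ := h1
    simp only [Function.comp_apply]
    rw [← hz', hτ' z hz]
  -- nonexpansiveness on `Γ`
  have hne : ∀ (i : ι), ∀ g ∈ Γ, ∀ a b : C, wq Q i ((g a : WeakSpace 𝕜 E) - g b) ≤
      wq Q i ((a : WeakSpace 𝕜 E) - b) := by
    intro i g hg a b
    have hcl : IsClosed {g : C → C | wq Q i ((g a : WeakSpace 𝕜 E) - g b) ≤
        wq Q i ((a : WeakSpace 𝕜 E) - b)} := by
      refine (isClosed_wq_le hQc i (wq Q i ((a : WeakSpace 𝕜 E) - b))).preimage ?_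
      exact (continuous_subtype_val.comp (continuous_apply a)).sub
        (continuous_subtype_val.comp (continuous_apply b))
    have hsub : range T ⊆ {g : C → C | wq Q i ((g a : WeakSpace 𝕜 E) - g b) ≤
        wq Q i ((a : WeakSpace 𝕜 E) - b)} := by
      rintro _ ⟨s, rfl⟩
      exact hT.nonexpansive i s a b
    exact closure_minimal hsub hcl hg
  -- total boundedness
  have htb : ∀ (i : ι) (ε : ℝ), 0 < ε → ∃ t : Finset C, (∀ w ∈ t, ∃ g ∈ Γ, g y = w) ∧
      ∀ g ∈ Γ, ∃ w ∈ t, wq Q i ((w : WeakSpace 𝕜 E) - g y) < ε := by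
    intro i ε hε
    refine totallyBounded_orbit hΓcl hT.quasi hΓcomp hF
      (fun a b => wq Q i ((a : WeakSpace 𝕜 E) - b)) (hne i) ?_ hy ε hε
    intro D' hD' ε' hε'
    obtain ⟨A, hA1, hA2, hA3⟩ := separable_closure hQc i (Subtype.val '' D') (hD'.image _) hε'
    refine ⟨fun n => Subtype.val ⁻¹' A n, fun n => (hA1 n).preimage continuous_subtype_val,
      fun n x hx y hy => hA2 n _ hx _ hy, ?_⟩
    intro z hz
    rw [closure_subtype] at hz
    obtain ⟨n, hn⟩ := mem_iUnion.1 (hA3 hz)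
    exact mem_iUnion.2 ⟨n, hn⟩
  -- the orbit is a point
  have hpt : ∀ g ∈ Γ, ∀ h ∈ Γ, g y = h y := by
    intro a ha b hb
    by_contra hab
    have hab' : (toWeakSpace 𝕜 E).symm (a y) - (toWeakSpace 𝕜 E).symm (b y) ≠ 0 := by
      intro h
      apply hab
      apply Subtype.ext
      exact (toWeakSpace 𝕜 E).symm.injective (sub_eq_zero.1 h)
    obtain ⟨i, hi⟩ := hQ.separating_of_T1 _ hab'
    have hi' : 0 < wq Q i ((a y : WeakSpace 𝕜 E) - b y) := by
      refine lt_of_le_of_ne (wq_nonneg Q i _) (Ne.symm ?_)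
      rw [wq_def, map_sub]
      exact hi
    set R : Set ℝ := {r | ∃ g ∈ Γ, ∃ h ∈ Γ, wq Q i ((g y : WeakSpace 𝕜 E) - h y) = r} with hR
    have hRbdd : BddAbove R := by
      obtain ⟨t, -, ht⟩ := htb i 1 one_pos
      obtain ⟨B, hB⟩ := ((t ×ˢ t).image fun q : C × C =>
        wq Q i ((q.1 : WeakSpace 𝕜 E) - q.2)).bddAbove
      refine ⟨B + 2, ?_⟩
      rintro _ ⟨g, hg, h, hh, rfl⟩
      obtain ⟨w, hw, hw'⟩ := ht g hg
      obtain ⟨v, hv, hv'⟩ := ht h hh
      have h1 : wq Q i ((w : WeakSpace 𝕜 E) - v) ≤ B := hB (by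
        simp only [Finset.coe_image, mem_image, Finset.mem_coe, Finset.mem_product]
        exact ⟨(w, v), ⟨hw, hv⟩, rfl⟩)
      have h2 := wq_tri Q i (g y : WeakSpace 𝕜 E) w (h y)
      have h3 := wq_tri Q i (w : WeakSpace 𝕜 E) v (h y)
      rw [wq_symm Q i (g y : WeakSpace 𝕜 E) w] at h2
      linarith
    set δ : ℝ := sSup R with hδ
    have hδle : ∀ g ∈ Γ, ∀ h ∈ Γ, wq Q i ((g y : WeakSpace 𝕜 E) - h y) ≤ δ :=
      fun g hg h hh => le_csSup hRbdd ⟨g, hg, h, hh, rfl⟩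
    have hδpos : 0 < δ := hi'.trans_le (hδle a ha b hb)
    obtain ⟨t, ht1, ht2⟩ := htb i (δ / 2) (half_pos hδpos)
    have htne : t.Nonempty := by
      obtain ⟨w, hw, -⟩ := ht2 a ha
      exact ⟨w, hw⟩
    set n : ℝ := (t.card : ℝ) with hn
    have hnpos : 0 < n := by
      rw [hn]
      exact_mod_cast htne.card_pos
    set u : WeakSpace 𝕜 E := ∑ w ∈ t, n⁻¹ • (w : WeakSpace 𝕜 E) with hu
    have huD : u ∈ D := by
      apply hDconv.sum_mem
      · intro w _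
        positivity
      · rw [Finset.sum_const, nsmul_eq_mul, ← hn, mul_inv_cancel₀ hnpos.ne']
      · intro w hw
        obtain ⟨g, hg, rfl⟩ := ht1 w hw
        exact hgyD g hg
    set r : ℝ := δ - n⁻¹ * (δ / 2) with hr
    have hrδ : r < δ := by
      have : 0 < n⁻¹ * (δ / 2) := by positivity
      linarith
    have hur : ∀ g ∈ Γ, wq Q i (u - g y) ≤ r := by
      intro g hg
      have e1 : u - g y = ∑ w ∈ t, n⁻¹ • ((w : WeakSpace 𝕜 E) - g y) := by
        simp only [smul_sub, Finset.sum_sub_distrib, ← hu]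
        congr 1
        rw [Finset.sum_const, ← Nat.cast_smul_eq_nsmul ℝ, ← hn, smul_smul,
          mul_inv_cancel₀ hnpos.ne', one_smul]
      obtain ⟨w₀, hw₀, hw₀'⟩ := ht2 g hg
      rw [e1]
      calc wq Q i (∑ w ∈ t, n⁻¹ • ((w : WeakSpace 𝕜 E) - g y))
          ≤ ∑ w ∈ t, wq Q i (n⁻¹ • ((w : WeakSpace 𝕜 E) - g y)) := wq_sum_le Q i t _
        _ = ∑ w ∈ t, n⁻¹ * wq Q i ((w : WeakSpace 𝕜 E) - g y) := by
            refine Finset.sum_congr rfl fun w _ => ?_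
            exact wq_smul Q i _ (by positivity) _
        _ = n⁻¹ * wq Q i ((w₀ : WeakSpace 𝕜 E) - g y) +
            ∑ w ∈ t.erase w₀, n⁻¹ * wq Q i ((w : WeakSpace 𝕜 E) - g y) :=
            (Finset.add_sum_erase t _ hw₀).symm
        _ ≤ n⁻¹ * (δ / 2) + ∑ w ∈ t.erase w₀, n⁻¹ * δ := by
            refine add_le_add ?_ (Finset.sum_le_sum fun w hw => ?_)
            · exact mul_le_mul_of_nonneg_left hw₀'.le (by positivity)
            · obtain ⟨h, hh, rfl⟩ := ht1 w (Finset.mem_of_mem_erase hw)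
              exact mul_le_mul_of_nonneg_left (hδle h hh g hg) (by positivity)
        _ = r := by
            rw [Finset.sum_const, nsmul_eq_mul, Finset.card_erase_of_mem hw₀,
              Nat.cast_sub htne.card_pos, ← hn, hr]
            field_simp
            ring
    -- the smaller set
    set D₂ : Set (WeakSpace 𝕜 E) := {z | z ∈ D ∧ ∀ g ∈ Γ, wq Q i (z - g y) ≤ r} with hD₂
    have hD₂𝒮 : D₂ ∈ 𝒮 := by
      refine ⟨fun z hz => hDC hz.1, ⟨u, huD, hur⟩, ?_, ?_, ?_⟩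
      · have : D₂ = D ∩ ⋂ g ∈ Γ, {z | wq Q i (z - g y) ≤ r} := by
          ext z
          simp [hD₂]
        rw [this]
        exact hDcl.inter (isClosed_biInter fun g _ => isClosed_wq_sub_le hQc i r _)
      · intro z hz z' hz' α β hα hβ hαβ
        refine ⟨hDconv hz.1 hz'.1 hα hβ hαβ, fun g hg => ?_⟩
        have e1 : α • z + β • z' - (g y : WeakSpace 𝕜 E) =
            α • (z - (g y : WeakSpace 𝕜 E)) + β • (z' - (g y : WeakSpace 𝕜 E)) := by
          have : (g y : WeakSpace 𝕜 E) = α • (g y : WeakSpace 𝕜 E) + β • (g y : WeakSpace 𝕜 E) := by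
            rw [← add_smul, hαβ, one_smul]
          rw [smul_sub, smul_sub]
          nth_rewrite 1 [this]
          abel
        rw [e1]
        calc wq Q i (α • (z - (g y : WeakSpace 𝕜 E)) + β • (z' - (g y : WeakSpace 𝕜 E)))
            ≤ α * wq Q i (z - g y) + β * wq Q i (z' - g y) := by
              refine (wq_add_le Q i _ _).trans ?_
              rw [wq_smul Q i _ hα, wq_smul Q i _ hβ]
          _ ≤ α * r + β * r := by
              refine add_le_add ?_ ?_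
              · exact mul_le_mul_of_nonneg_left (hz.2 g hg) hα
              · exact mul_le_mul_of_nonneg_left (hz'.2 g hg) hβ
          _ = r := by rw [← add_mul, hαβ, one_mul]
      · intro s x hx
        refine ⟨hDinv s x hx.1, fun g hg => ?_⟩
        obtain ⟨h, hh, hh'⟩ := hsurj s g hg
        rw [← hh']
        exact (hne i (T s) (hTΓ s) x (h y)).trans (hx.2 h hh)
    have hDD₂ : D ⊆ D₂ := hDmin.le_of_le hD₂𝒮 (fun z hz => hz.1)
    have hδr : δ ≤ r := by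
      refine csSup_le ⟨_, a, ha, b, hb, rfl⟩ ?_
      rintro _ ⟨g, hg, h, hh, rfl⟩
      exact (hDD₂ (hgyD g hg)).2 h hh
    linarith
  obtain ⟨s₀⟩ := ‹Nonempty S›
  refine ⟨T s₀ y, fun s => ?_⟩
  exact hpt (T s ∘ T s₀) (hΓcomp _ (hTΓ s) _ (hTΓ s₀)) (T s₀) (hTΓ s₀)

end Main

end Run7.h384.WAP
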